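import Pool.Agent.H957R2.RG_PGc

/-!
Project RG (helper306), tasks PG4, PG1: Poisson summation for the families.
-/

set_option autoImplicit false

namespace Pool.Agent.H957R2.RGPG

open Finset Filter Topology MeasureTheory Pool.Agent.H306R2.RZ Pool.Agent.H306R2.RG
open Pool.Agent.H306R2.RG.StubsA (bb8 bb4 bb1 bb2 FF1)
open Pool.Agent.H509R2.RZP1

noncomputable section

/-! ### assembly -/

theorem EAg_eq (φ : FD) (F : ℝ → ℝ) (X : ℝ) (f : ℕ → ℝ) (ψ : ℤ → ℝ) (h1 : ∀ d : ℕ, φ.A d → ψ d = 1)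
    (h0 : ∀ d : ℕ, ¬ φ.A d → ψ d = 0) :
    EAg φ F X f = (∑' d : ℕ, F ((d : ℝ) / X) * (ψ d * f d)) / X := by
  unfold EAg
  congr 1
  refine tsum_congr fun d => ?_
  by_cases h : φ.A d
  · rw [if_pos h, h1 d h, one_mul]
  · rw [if_neg h, h0 d h, zero_mul, mul_zero]

/-- Poisson summation in the final form: `T k` -/
theorem main_sum {F : ℝ → ℝ} (hF : TF F) {X : ℝ} (hX : 0 < X) {n : ℕ} (hn : Odd n) (u : ℤ)
    (ψ : ℤ → ℝ) (hψ : ∀ m t : ℤ, ψ (m + 8 * t) = ψ m) :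
    Summable (fun k : ℤ => js u n * js 2 n * Ws ψ n k * Gk k n * Ft F (k * X / (8 * n))) ∧
    (∑' d : ℕ, F ((d : ℝ) / X) * (ψ d * js (u * d) n)) / X =
      (∑' k : ℤ, js u n * js 2 n * Ws ψ n k * Gk k n * Ft F (k * X / (8 * n))) / (8 * n) := by
  have hn0 : n ≠ 0 := by rintro rfl; exact absurd hn (by decide)
  have hnR : (n : ℝ) ≠ 0 := by exact_mod_cast hn0
  have h := poissonN hF hX (N := 8 * n) (by omega) (fun d : ℤ => ψ d * js (u * d) n) (by
    intro m t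
    show ψ (m + ((8 * n : ℕ) : ℤ) * t) * js (u * (m + ((8 * n : ℕ) : ℤ) * t)) n = ψ m * js (u * m) n
    rw [show m + ((8 * n : ℕ) : ℤ) * t = m + 8 * (n * t) by push_cast; ring, hψ,
      show u * (m + 8 * (n * t)) = u * m + n * (8 * u * t) by ring, js_add])
  have e : ∀ k : ℤ, (∑ b ∈ range (8 * n), (fun d : ℤ => ψ d * js (u * d) n) b *
      cas (2 * Real.pi * k * ((b : ℝ) / ((8 * n : ℕ) : ℝ)))) * Ft F (k * X / ((8 * n : ℕ) : ℝ)) =
      js u n * js 2 n * Ws ψ n k * Gk k n * Ft F (k * X / (8 * n)) := by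
    intro k
    have := coef hn u ψ hψ k
    show (∑ b ∈ range (8 * n), (ψ b * js (u * b) n) *
      cas (2 * Real.pi * k * ((b : ℝ) / ((8 * n : ℕ) : ℝ)))) * Ft F (k * X / ((8 * n : ℕ) : ℝ)) = _
    rw [this]
    unfold Ws
    push_cast
    rfl
  rw [funext e] at h
  refine ⟨h.1, ?_⟩
  rw [h.2]
  push_cast
  field_simp

theorem eps_sq (ε : ℤ) (hε : ε = 1 ∨ ε = -1) : ε * ε = 1 := by
  rcases hε with rfl | rfl <;> rfl

theorem eps_gcd (ε : ℤ) (hε : ε = 1 ∨ ε = -1) (n : ℕ) : Int.gcd ε n = 1 := by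
  rcases hε with rfl | rfl <;> simp [Int.gcd]

theorem js_eps_sq (ε : ℤ) (hε : ε = 1 ∨ ε = -1) (n : ℕ) : js ε n * js ε n = 1 := by
  rw [← js_mul, eps_sq ε hε]
  simp [js]

theorem PG4 (ε : ℤ) (hε : ε = 1 ∨ ε = -1) (F : ℝ → ℝ) (hF : TF F) (X : ℝ) (hX : 0 < X) (n : ℕ)
    (hn : Odd n) :
    Summable (fun k : ℤ => bb4 k * Gk k n * Ft F ((ε : ℝ) / 4 * k * X / n)) ∧
    EAg (F4 ε) F X (fun d => js ((F4 ε).e * (d : ℤ)) n) =
      1 / 4 * ((∑' k : ℤ, bb4 k * Gk k n * Ft F ((ε : ℝ) / 4 * k * X / n)) / n) := by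
  have hn0 : n ≠ 0 := by rintro rfl; exact absurd hn (by decide)
  have hnR : (n : ℝ) ≠ 0 := by exact_mod_cast hn0
  have hm := main_sum hF hX hn ε (psi4 ε) (psi4_per ε hε)
  set T : ℤ → ℝ := fun k => js ε n * js 2 n * Ws (psi4 ε) n k * Gk k n * Ft F (k * X / (8 * n))
    with hT
  have hinj : Function.Injective (fun k : ℤ => 2 * (ε * k)) := by
    intro a b hab
    have h1 : 2 * (ε * a) = 2 * (ε * b) := hab
    rcases hε with rfl | rfl <;> omega
  have hTe : ∀ k : ℤ, T (2 * (ε * k)) = 2 * (bb4 k * Gk k n * Ft F ((ε : ℝ) / 4 * k * X / n)) := by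
    intro k
    rw [hT]
    simp only []
    rw [Ws4_even hn ε hε, show ε * (ε * k) = k by rw [← mul_assoc, eps_sq ε hε, one_mul],
      Gk_mul hn0 2 _ (jj_cop hn), Gk_mul hn0 ε k (eps_gcd ε hε n)]
    have e1 : ((2 * (ε * k) : ℤ) : ℝ) * X / (8 * n) = (ε : ℝ) / 4 * k * X / n := by
      push_cast
      field_simp
      ring
    rw [e1]
    have h2 := js2_sq hn
    have h3 := js_eps_sq ε hε n
    linear_combination (2 * bb4 k * Gk k n * Ft F ((ε : ℝ) / 4 * k * X / n)) *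
      (js ε n * js ε n * h2 + h3)
  have hsupp : Function.support T ⊆ Set.range (fun k : ℤ => 2 * (ε * k)) := by
    intro k hk
    have hev : k % 2 = 0 := by
      by_contra hodd
      apply hk
      rw [hT]
      simp only []
      rw [Ws4_odd hn ε hε k (by omega)]
      ring
    refine ⟨ε * (k / 2), ?_⟩
    show 2 * (ε * (ε * (k / 2))) = k
    rw [← mul_assoc ε, eps_sq ε hε]
    omega
  have hS := hm.1.comp_injective hinj
  have hS' : (T ∘ fun k : ℤ => 2 * (ε * k)) =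
      fun k => 2 * (bb4 k * Gk k n * Ft F ((ε : ℝ) / 4 * k * X / n)) := funext hTe
  rw [hS'] at hS
  refine ⟨(summable_mul_left_iff two_ne_zero).1 hS, ?_⟩
  rw [EAg_eq (F4 ε) F X _ (psi4 ε) (fun d hd => if_pos hd) (fun d hd => if_neg hd)]
  refine hm.2.trans ?_
  rw [← hinj.tsum_eq hsupp, tsum_congr hTe, tsum_mul_left]
  generalize (∑' k : ℤ, bb4 k * Gk k n * Ft F ((ε : ℝ) / 4 * k * X / n)) = S
  field_simp
  ring

theorem PG1 (ε c : ℤ) (hε : ε = 1 ∨ ε = -1) (hc : c = 1 ∨ c = 5) (F : ℝ → ℝ) (hF : TF F) (X : ℝ)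
    (hX : 0 < X) (n : ℕ) (hn : Odd n) :
    Summable (fun k : ℤ => bb1 k * Gk k n * Ft F ((ε : ℝ) / 4 * k * X / n)) ∧
    Summable (fun k : ℤ => bb2 k * Gk k n * Ft F ((ε : ℝ) / 8 * k * X / n)) ∧
    EAg (FF1 ε c) F X (fun d => js (ε * (d : ℤ)) n) =
      1 / 8 * ((∑' k : ℤ, bb1 k * Gk k n * Ft F ((ε : ℝ) / 4 * k * X / n)) / n) +
      (FF1 ε c).η * Real.sqrt 2 / 8 *
        ((∑' k : ℤ, bb2 k * Gk k n * Ft F ((ε : ℝ) / 8 * k * X / n)) / n) := by
  have hn0 : n ≠ 0 := by rintro rfl; exact absurd hn (by decide)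
  have hnR : (n : ℝ) ≠ 0 := by exact_mod_cast hn0
  have hm := main_sum hF hX hn ε (psi1 ε c) (psi1_per ε c hε)
  set T : ℤ → ℝ := fun k => js ε n * js 2 n * Ws (psi1 ε c) n k * Gk k n * Ft F (k * X / (8 * n))
    with hT
  set η : ℝ := (FF1 ε c).η with hη
  have hη0 : η * Real.sqrt 2 ≠ 0 := by
    refine mul_ne_zero ?_ (by positivity)
    rw [hη]
    unfold FF1
    simp only []
    split_ifs <;> norm_num
  set T1 : ℤ → ℝ := Set.indicator {k : ℤ | k % 2 = 0} T with hT1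
  set T2 : ℤ → ℝ := Set.indicator {k : ℤ | k % 2 = 0}ᶜ T with hT2
  have hS1 : Summable T1 := hm.1.indicator _
  have hS2 : Summable T2 := hm.1.indicator _
  have hsum : tsum T = tsum T1 + tsum T2 := by
    rw [← hS1.tsum_add hS2]
    refine tsum_congr fun k => ?_
    exact (Set.indicator_self_add_compl_apply {k : ℤ | k % 2 = 0} T k).symm
  -- even part
  have hinj : Function.Injective (fun k : ℤ => 2 * (ε * k)) := by
    intro a b hab
    have h1 : 2 * (ε * a) = 2 * (ε * b) := hab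
    rcases hε with rfl | rfl <;> omega
  have hTe : ∀ k : ℤ, T1 (2 * (ε * k)) = bb1 k * Gk k n * Ft F ((ε : ℝ) / 4 * k * X / n) := by
    intro k
    have hmem : 2 * (ε * k) ∈ {k : ℤ | k % 2 = 0} := by
      show (2 * (ε * k)) % 2 = 0
      omega
    rw [hT1, Set.indicator_of_mem hmem, hT]
    simp only []
    rw [Ws1_even hn ε c hε hc, show ε * (ε * k) = k by rw [← mul_assoc, eps_sq ε hε, one_mul],
      Gk_mul hn0 2 _ (jj_cop hn), Gk_mul hn0 ε k (eps_gcd ε hε n)]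
    have e1 : ((2 * (ε * k) : ℤ) : ℝ) * X / (8 * n) = (ε : ℝ) / 4 * k * X / n := by
      push_cast
      field_simp
      ring
    rw [e1]
    have h2 := js2_sq hn
    have h3 := js_eps_sq ε hε n
    linear_combination (bb1 k * Gk k n * Ft F ((ε : ℝ) / 4 * k * X / n)) *
      (js ε n * js ε n * h2 + h3)
  have hsupp : Function.support T1 ⊆ Set.range (fun k : ℤ => 2 * (ε * k)) := by
    intro k hk
    have hev : k % 2 = 0 := by
      by_contra hodd
      have hnm : k ∉ {k : ℤ | k % 2 = 0} := hodd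
      exact hk (Set.indicator_of_notMem hnm T)
    refine ⟨ε * (k / 2), ?_⟩
    show 2 * (ε * (ε * (k / 2))) = k
    rw [← mul_assoc ε, eps_sq ε hε]
    omega
  have hA := hS1.comp_injective hinj
  have hA' : (T1 ∘ fun k : ℤ => 2 * (ε * k)) =
      fun k => bb1 k * Gk k n * Ft F ((ε : ℝ) / 4 * k * X / n) := funext hTe
  rw [hA'] at hA
  -- odd part
  have hinj2 : Function.Injective (fun k : ℤ => ε * k) := by
    intro a b hab
    have h1 : ε * a = ε * b := hab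
    rcases hε with rfl | rfl <;> omega
  have hTo : ∀ k : ℤ, T2 (ε * k) =
      η * Real.sqrt 2 * (bb2 k * Gk k n * Ft F ((ε : ℝ) / 8 * k * X / n)) := by
    intro k
    rcases Int.emod_two_eq_zero_or_one k with hk | hk
    · have hmem : ε * k ∉ ({k : ℤ | k % 2 = 0}ᶜ : Set ℤ) := by
        intro h
        apply h
        show (ε * k) % 2 = 0
        rcases hε with rfl | rfl <;> omega
      rw [hT2, Set.indicator_of_notMem hmem, bb2_even k hk]
      ring
    · have hodd : (ε * k) % 2 = 1 := by rcases hε with rfl | rfl <;> omega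
      have hmem : ε * k ∈ ({k : ℤ | k % 2 = 0}ᶜ : Set ℤ) := by
        intro h
        have : (ε * k) % 2 = 0 := h
        omega
      rw [hT2, Set.indicator_of_mem hmem, hT]
      simp only []
      have hW := Ws1_odd hn ε c hε hc (ε * k) hodd
      rw [show ε * (ε * k) = k by rw [← mul_assoc, eps_sq ε hε, one_mul], ← hη] at hW
      rw [Gk_mul hn0 ε k (eps_gcd ε hε n)]
      have e1 : ((ε * k : ℤ) : ℝ) * X / (8 * n) = (ε : ℝ) / 8 * k * X / n := by
        push_cast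
        field_simp
      rw [e1]
      have h3 := js_eps_sq ε hε n
      linear_combination (Gk k n * Ft F ((ε : ℝ) / 8 * k * X / n)) *
        (js ε n * js ε n * hW + η * Real.sqrt 2 * bb2 k * h3)
  have hsupp2 : Function.support T2 ⊆ Set.range (fun k : ℤ => ε * k) := by
    intro k hk
    refine ⟨ε * k, ?_⟩
    show ε * (ε * k) = k
    rw [← mul_assoc ε, eps_sq ε hε, one_mul]
  have hB := hS2.comp_injective hinj2
  have hB' : (T2 ∘ fun k : ℤ => ε * k) =
      fun k => η * Real.sqrt 2 * (bb2 k * Gk k n * Ft F ((ε : ℝ) / 8 * k * X / n)) := funext hTo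
  rw [hB'] at hB
  refine ⟨hA, (summable_mul_left_iff hη0).1 hB, ?_⟩
  rw [EAg_eq (FF1 ε c) F X _ (psi1 ε c) (fun d hd => if_pos hd) (fun d hd => if_neg hd)]
  refine hm.2.trans ?_
  rw [hsum, ← hinj.tsum_eq hsupp, ← hinj2.tsum_eq hsupp2, tsum_congr hTe, tsum_congr hTo,
    tsum_mul_left]
  generalize (∑' k : ℤ, bb1 k * Gk k n * Ft F ((ε : ℝ) / 4 * k * X / n)) = S
  generalize (∑' k : ℤ, bb2 k * Gk k n * Ft F ((ε : ℝ) / 8 * k * X / n)) = S'
  field_simp

end

end Pool.Agent.H957R2.RGPG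

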