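import Mathlib

set_option autoImplicit false

/-!
# Curves on closed subvarieties of `P^1 × P^M`, numerical equivalence, the cone `Eff_1`

All varieties are over `ℂ`. The homogeneous coordinates of `P^1 × P^M` are `X (Sum.inl i)`
(`i : Fin 2`, coordinates of the first factor) and `X (Sum.inr j)` (`j : Fin (M + 1)`, coordinates
of the second factor).
-/

namespace Pool.Agent.H957R2

open WithZero

/-- A place of a field `K` over `ℂ`: a normalised discrete valuation of `K` (written
multiplicatively, `|x| = exp (- ord x)`), trivial on the constants. -/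
structure Place (K : Type) [Field K] [Algebra ℂ K] where
  /-- the valuation -/
  val : Valuation K (WithZero (Multiplicative ℤ))
  surj : Function.Surjective val
  trivial : ∀ c : ℂ, c ≠ 0 → val (algebraMap ℂ K c) = 1

/-- The polynomial ring in the homogeneous coordinates of `P^1 × P^M`. -/
abbrev CoordRing (M : ℕ) : Type := MvPolynomial (Fin 2 ⊕ Fin (M + 1)) ℂ

/-- `G` is bihomogeneous of bidegree `(a, b)`, that is, a section of `O(a, b)` on `P^1 × P^M`. -/
def IsBihom {M : ℕ} (G : CoordRing M) (a b : ℕ) : Prop :=
  MvPolynomial.IsWeightedHomogeneous (Sum.elim (fun _ => 1) (fun _ => 0)) G a ∧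
  MvPolynomial.IsWeightedHomogeneous (Sum.elim (fun _ => 0) (fun _ => 1)) G b

/-- A Zariski closed subset of `P^1 × P^M`, given by bihomogeneous equations. -/
structure ClosedSub (M : ℕ) where
  /-- the equations -/
  eqs : Set (CoordRing M)
  bihom : ∀ f ∈ eqs, ∃ a b, IsBihom f a b

/-- (Homogeneous coordinates of) a point of `Z` with values in a field `K ⊇ ℂ`. -/
structure Point {M : ℕ} (Z : ClosedSub M) (K : Type) [Field K] [Algebra ℂ K] where
  /-- coordinates in `P^1` -/
  p : Fin 2 → K
  /-- coordinates in `P^M` -/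
  q : Fin (M + 1) → K
  hp : p ≠ 0
  hq : q ≠ 0
  mem : ∀ f ∈ Z.eqs, MvPolynomial.aeval (Sum.elim p q) f = 0

/-- The value of a polynomial at (homogeneous coordinates of) a point. -/
noncomputable def Point.eval {M : ℕ} {Z : ClosedSub M} {K : Type} [Field K] [Algebra ℂ K]
    (P : Point Z K) (f : CoordRing M) : K :=
  MvPolynomial.aeval (Sum.elim P.p P.q) f

/-- An irreducible curve on `Z`, given by its function field `K` and its generic point: a point of
`Z` with values in a field `K` of transcendence degree one over `ℂ` which is generated over `ℂ` by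
the (ratios of the) coordinates of the point. -/
structure Curve {M : ℕ} (Z : ClosedSub M) where
  /-- the function field of the curve -/
  K : Type
  /-- it is a field -/
  [field : Field K]
  /-- it contains `ℂ` -/
  [alg : Algebra ℂ K]
  /-- the generic point of the curve -/
  pt : Point Z K
  trdeg : Algebra.trdeg ℂ K = 1
  gen : IntermediateField.adjoin ℂ
    (Set.range (fun ij : Fin 2 × Fin 2 => pt.p ij.1 / pt.p ij.2) ∪
      Set.range (fun ij : Fin (M + 1) × Fin (M + 1) => pt.q ij.1 / pt.q ij.2)) = ⊤

attribute [instance] Curve.field Curve.alg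

/-- A morphism `Z → P^r`, given by families of bihomogeneous forms of the same bidegree
without common zero: the `l`-th family represents the morphism at the points where it does not
vanish, every point is of this kind for some `l`, and the families agree where they are defined. -/
structure Morphism {M : ℕ} (Z : ClosedSub M) (r : ℕ) where
  /-- index set of the local representations -/
  ι : Type
  /-- the local representations -/
  G : ι → Fin (r + 1) → CoordRing M
  /-- their bidegrees -/
  bideg : ι → ℕ × ℕ
  bihom : ∀ l j, IsBihom (G l j) (bideg l).1 (bideg l).2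
  cover : ∀ (K : Type) [Field K] [Algebra ℂ K] (P : Point Z K), ∃ l, ∃ j, P.eval (G l j) ≠ 0
  agree : ∀ (K : Type) [Field K] [Algebra ℂ K] (P : Point Z K) (l l' : ι) (j j' : Fin (r + 1)),
    P.eval (G l j) * P.eval (G l' j') = P.eval (G l j') * P.eval (G l' j)

/-- For a tuple `x` of elements of the function field `K` of a curve, not all zero, this is
`∑_v max_j (- ord_v (x_j))`, the sum over all places of `K`: the degree of the pull-back of `O(1)`
to the smooth projective model of `K` under the morphism to projective space with homogeneous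
coordinates `x`. -/
noncomputable def height {K : Type} [Field K] [Algebra ℂ K] {n : ℕ} (x : Fin n → K) : ℤ :=
  ∑ᶠ v : Place K, log (Finset.univ.sup fun j => v.val (x j))

/-- The intersection number `(φ^* O(1) · C)` of the curve `C` on `Z` with the line bundle
`φ^* O(1)`, for a morphism `φ : Z → P^r`. -/
noncomputable def Morphism.degree {M : ℕ} {Z : ClosedSub M} {r : ℕ} (φ : Morphism Z r)
    (C : Curve Z) : ℤ :=
  height fun j => C.pt.eval (φ.G (φ.cover C.K C.pt).choose j)

/-- The intersection number of a real 1-cycle with `φ^* O(1)`. -/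
noncomputable def Morphism.degreeMap {M : ℕ} {Z : ClosedSub M} {r : ℕ} (φ : Morphism Z r) :
    (Curve Z →₀ ℝ) →ₗ[ℝ] ℝ :=
  Finsupp.linearCombination ℝ fun C => (φ.degree C : ℝ)

/-- The numerically trivial real 1-cycles on `Z`: those whose intersection number with every line
bundle `φ^* O(1)` is zero. (Every line bundle on the projective variety `Z` is a difference of two
such line bundles.) -/
noncomputable def numTriv {M : ℕ} (Z : ClosedSub M) : Submodule ℝ (Curve Z →₀ ℝ) :=
  ⨅ (r : ℕ) (φ : Morphism Z r), LinearMap.ker φ.degreeMap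

/-- The real vector space `N_1(Z)` of real 1-cycles on `Z` modulo numerical equivalence. -/
abbrev N1 {M : ℕ} (Z : ClosedSub M) : Type 1 := (Curve Z →₀ ℝ) ⧸ numTriv Z

/-- The convex cone in `N_1(Z)` spanned by the classes of the curves on `Z`. -/
def curveCone {M : ℕ} (Z : ClosedSub M) : Set (N1 Z) :=
  {x | ∃ c : Curve Z →₀ ℝ, (∀ C, 0 ≤ c C) ∧ (numTriv Z).mkQ c = x}

/-- The cone `Eff_1(Z)`: the closure in `N_1(Z)` of the convex cone spanned by the classes of
curves. The topology is the module topology, which on a finite dimensional real vector space is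
the usual one. -/
noncomputable def Eff1 {M : ℕ} (Z : ClosedSub M) : Set (N1 Z) :=
  @closure (N1 Z) (moduleTopology ℝ (N1 Z)) (curveCone Z)

section Inclusion

variable {M : ℕ} {X Y : ClosedSub M} (h : Y.eqs ⊆ X.eqs)

/-- If `X ⊆ Y`, a point of `X` is a point of `Y`. -/
def Point.incl {K : Type} [Field K] [Algebra ℂ K] (P : Point X K) : Point Y K :=
  ⟨P.p, P.q, P.hp, P.hq, fun f hf => P.mem f (h hf)⟩

/-- If `X ⊆ Y`, a curve on `X` is a curve on `Y`. -/
def Curve.incl (C : Curve X) : Curve Y :=
  ⟨C.K, C.pt.incl h, C.trdeg, C.gen⟩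

/-- If `X ⊆ Y`, a morphism on `Y` restricts to a morphism on `X`. -/
def Morphism.restrict {r : ℕ} (φ : Morphism Y r) : Morphism X r where
  ι := φ.ι
  G := φ.G
  bideg := φ.bideg
  bihom := φ.bihom
  cover K _ _ P := φ.cover K (P.incl h)
  agree K _ _ P := φ.agree K (P.incl h)

theorem Morphism.degree_restrict {r : ℕ} (φ : Morphism Y r) (C : Curve X) :
    (φ.restrict h).degree C = φ.degree (C.incl h) := rfl

theorem numTriv_le : numTriv X ≤ (numTriv Y).comap (Finsupp.lmapDomain ℝ ℝ (Curve.incl h)) := by
  intro c hc
  rw [Submodule.mem_comap]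
  unfold numTriv at hc ⊢
  simp only [Submodule.mem_iInf, LinearMap.mem_ker] at hc ⊢
  intro r φ
  have h1 := hc r (φ.restrict h)
  unfold Morphism.degreeMap at h1 ⊢
  rw [Finsupp.lmapDomain_apply, Finsupp.linearCombination_mapDomain]
  exact h1

/-- The push-forward `i_* : N_1(X) → N_1(Y)` for the inclusion `i : X → Y`. -/
noncomputable def push : N1 X →ₗ[ℝ] N1 Y :=
  Submodule.mapQ (numTriv X) (numTriv Y) (Finsupp.lmapDomain ℝ ℝ (Curve.incl h)) (numTriv_le h)

end Inclusion

/-- `P^1 × B ⊆ P^1 × P^M`, where `B ⊆ P^M` is given by the set `E` of homogeneous equations. -/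
def prodP1 {M : ℕ} (E : Set (MvPolynomial (Fin (M + 1)) ℂ)) (hE : ∀ g ∈ E, ∃ n, g.IsHomogeneous n) :
    ClosedSub M where
  eqs := MvPolynomial.rename Sum.inr '' E
  bihom := by
    rintro f ⟨g, hg, rfl⟩
    obtain ⟨n, hn⟩ := hE g hg
    refine ⟨0, n, ?_, ?_⟩
    · intro d hd
      obtain ⟨u, rfl, hu⟩ := MvPolynomial.coeff_rename_ne_zero _ _ _ hd
      rw [Finsupp.weight_apply, Finsupp.sum_mapDomain_index (by simp) (by intros; simp [add_mul])]
      simp
    · intro d hd
      obtain ⟨u, rfl, hu⟩ := MvPolynomial.coeff_rename_ne_zero _ _ _ hd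
      rw [Finsupp.weight_apply, Finsupp.sum_mapDomain_index (by simp) (by intros; simp [add_mul])]
      have := hn hu
      rw [Finsupp.weight_apply] at this
      simpa using this

/-- The hypersurface section `Y ∩ {F = 0}` of `Y`, for a section `F` of `O(a, b)`. -/
def hyper {M : ℕ} (Y : ClosedSub M) (F : CoordRing M) {a b : ℕ} (hF : IsBihom F a b) :
    ClosedSub M where
  eqs := Y.eqs ∪ {F}
  bihom := by
    rintro f (hf | rfl)
    · exact Y.bihom f hf
    · exact ⟨a, b, hF⟩

theorem hyper_le {M : ℕ} (Y : ClosedSub M) (F : CoordRing M) {a b : ℕ} (hF : IsBihom F a b) :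
    Y.eqs ⊆ (hyper Y F hF).eqs := Set.subset_union_left

end Pool.Agent.H957R2
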