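import Pool.Agent.H957R2.Generic

set_option autoImplicit false

namespace Pool.Agent.H957R2

open MvPolynomial

section

variable {M : ℕ}

/-- an exponent of degree `(M+1) e` has an entry `≥ e` -/
theorem exists_big (e : ℕ) (β : Fin (M + 1) →₀ ℕ) (hβ : β ∈ expo M ((M + 1) * e)) :
    ∃ i, e ≤ β i := by
  rw [mem_expo] at hβ
  by_contra hcon
  push Not at hcon
  have h1 : ∑ j, β j < ∑ _j : Fin (M + 1), e :=
    Finset.sum_lt_sum_of_nonempty Finset.univ_nonempty fun i _ => hcon i
  rw [hβ, Finset.sum_const, Finset.card_univ, Fintype.card_fin, smul_eq_mul] at h1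
  exact lt_irrefl _ h1

/-- the chosen entry -/
noncomputable def big (e : ℕ) (β : expo M ((M + 1) * e)) : Fin (M + 1) :=
  (exists_big e β.1 β.2).choose

theorem big_spec (e : ℕ) (β : expo M ((M + 1) * e)) : e ≤ β.1 (big e β) :=
  (exists_big e β.1 β.2).choose_spec

/-- the remaining exponent -/
noncomputable def rest (e : ℕ) (β : expo M ((M + 1) * e)) : Fin (M + 1) →₀ ℕ :=
  β.1 - Finsupp.single (big e β) e

theorem rest_add (e : ℕ) (β : expo M ((M + 1) * e)) :
    rest e β + Finsupp.single (big e β) e = β.1 := by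
  unfold rest
  refine tsub_add_cancel_of_le ?_
  rw [Finsupp.single_le_iff]
  exact big_spec e β

/-- the generic Macaulay matrix -/
noncomputable def mac (M N e : ℕ) : Matrix (expo M ((M + 1) * e)) (expo M ((M + 1) * e))
    (MvPolynomial ((Fin 2 ⊕ Fin (M + 1)) →₀ ℕ) ℂ) := fun γ β =>
  open Classical in
  if rest e β ≤ γ.1 then X (comb (big e β) (N - (big e β : ℕ)) (γ.1 - rest e β)) else 0

/-- its determinant -/
noncomputable def Phi (M N e : ℕ) : MvPolynomial ((Fin 2 ⊕ Fin (M + 1)) →₀ ℕ) ℂ :=
  (mac M N e).det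

/-- the special form `∑ X_0^i X_1^(N-i) y_i^e` -/
noncomputable def F0 (M N e : ℕ) : CoordRing M :=
  ∑ i : Fin (M + 1), monomial (comb i (N - (i : ℕ)) (Finsupp.single i e)) 1

theorem F0_bihom (M N e : ℕ) (h : M ≤ N) : IsBihom (F0 M N e) N e := by
  constructor
  · refine MvPolynomial.IsWeightedHomogeneous.sum _ _ _ fun i _ => ?_
    refine isWeightedHomogeneous_monomial _ _ _ ?_
    rw [weight1, comb_inl0, comb_inl1]
    have := i.2
    omega
  · refine MvPolynomial.IsWeightedHomogeneous.sum _ _ _ fun i _ => ?_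
    refine isWeightedHomogeneous_monomial _ _ _ ?_
    rw [weight2]
    simp only [comb_inr]
    rw [Finset.sum_eq_single i]
    · simp
    · intro j _ hj
      rw [Finsupp.single_eq_of_ne hj]
    · simp

theorem F0_coeff (M N e : ℕ) (i : Fin (M + 1)) (δ : Fin (M + 1) →₀ ℕ) :
    coeff (comb i (N - (i : ℕ)) δ) (F0 M N e) = if δ = Finsupp.single i e then 1 else 0 := by
  classical
  unfold F0
  rw [coeff_sum]
  rw [Finset.sum_eq_single i]
  · rw [coeff_monomial]
    by_cases h : δ = Finsupp.single i e
    · rw [if_pos h, if_pos (by rw [h])]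
    · rw [if_neg h, if_neg]
      intro h1
      have h2 := comb_inj (M := M) N (Set.mem_univ ((i : ℕ), Finsupp.single i e))
        (Set.mem_univ ((i : ℕ), δ)) h1
      exact h (Prod.ext_iff.1 h2).2.symm
  · intro j _ hj
    rw [coeff_monomial, if_neg]
    intro h1
    have h2 := DFunLike.congr_fun h1 (Sum.inl 0)
    rw [comb_inl0, comb_inl0] at h2
    exact hj (Fin.ext h2)
  · simp

theorem Phi_F0 (M N e : ℕ) : eval (fun α => coeff α (F0 M N e)) (Phi M N e) = 1 := by
  classical
  unfold Phi
  rw [RingHom.map_det]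
  have h : (eval (fun α => coeff α (F0 M N e))).mapMatrix (mac M N e) = 1 := by
    ext γ β
    rw [RingHom.mapMatrix_apply, Matrix.map_apply, Matrix.one_apply]
    unfold mac
    by_cases hle : rest e β ≤ γ.1
    · rw [if_pos hle, eval_X, F0_coeff]
      by_cases hγ : γ = β
      · rw [if_pos hγ, if_pos]
        rw [hγ, ← rest_add e β]
        exact add_tsub_cancel_left _ _
      · rw [if_neg hγ, if_neg]
        intro h1
        apply hγ
        apply Subtype.ext
        rw [← rest_add e β, ← h1]
        exact (add_tsub_cancel_of_le hle).symm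
    · rw [if_neg hle, map_zero, if_neg]
      intro hγ
      apply hle
      rw [hγ]
      conv_rhs => rw [← rest_add e β]
      exact le_self_add
  rw [h, Matrix.det_one]

/-- `Φ` is homogeneous -/
theorem Phi_hom (M N e : ℕ) : (Phi M N e).IsHomogeneous (Fintype.card (expo M ((M + 1) * e))) := by
  classical
  unfold Phi
  rw [Matrix.det_apply]
  refine IsHomogeneous.sum _ _ _ fun σ _ => ?_
  rw [Units.smul_def, zsmul_eq_mul]
  have h1 : (∏ i, mac M N e (σ i) i).IsHomogeneous
      (∑ _i : expo M ((M + 1) * e), 1) := by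
    refine IsHomogeneous.prod _ _ _ fun i _ => ?_
    unfold mac
    split_ifs
    · exact isHomogeneous_X _ _
    · exact isHomogeneous_zero _ _ _
  rw [Finset.sum_const, Finset.card_univ, smul_eq_mul, mul_one] at h1
  have h2 : (((Equiv.Perm.sign σ : ℤˣ) : ℤ) : MvPolynomial ((Fin 2 ⊕ Fin (M + 1)) →₀ ℕ) ℂ) =
      C ((((Equiv.Perm.sign σ : ℤˣ) : ℤ) : ℂ)) := by
    rw [map_intCast]
  rw [h2]
  exact h1.C_mul _

/-- if `Φ(F) ≠ 0` then the coefficient forms of `F` have no common zero over any field -/
theorem exists_cf_ne_zero {K : Type} [Field K] [Algebra ℂ K] (M N e : ℕ) (he : 0 < e)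
    (F : CoordRing M) (hΦ : eval (fun α => coeff α F) (Phi M N e) ≠ 0)
    (q : Fin (M + 1) → K) (hq : q ≠ 0) : ∃ i : Fin (M + 1), cf F N e q i ≠ 0 := by
  classical
  by_contra hcon
  push Not at hcon
  -- the matrix over `K`
  let φ : ℂ →+* K := algebraMap ℂ K
  let A : Matrix (expo M ((M + 1) * e)) (expo M ((M + 1) * e)) K :=
    φ.mapMatrix ((eval (fun α => coeff α F)).mapMatrix (mac M N e))
  have hdet : A.det ≠ 0 := by
    have h1 : A.det = φ (eval (fun α => coeff α F) (Phi M N e)) := by
      show (φ.mapMatrix _).det = _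
      rw [← RingHom.map_det, ← RingHom.map_det]
      rfl
    rw [h1]
    exact (map_ne_zero_iff φ φ.injective).2 hΦ
  let w : expo M ((M + 1) * e) → K := fun γ => ∏ j, q j ^ γ.1 j
  have hw : Matrix.vecMul w A = 0 := by
    funext β
    rw [Matrix.vecMul, dotProduct, Pi.zero_apply]
    have h2 : ∀ γ : expo M ((M + 1) * e), w γ * A γ β = if rest e β ≤ γ.1 then
        (∏ j, q j ^ γ.1 j) * φ (coeff (comb (big e β) (N - (big e β : ℕ)) (γ.1 - rest e β)) F)
        else 0 := by
      intro γ
      show w γ * φ (eval (fun α => coeff α F) (mac M N e γ β)) = _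
      unfold mac
      by_cases hle : rest e β ≤ γ.1
      · rw [if_pos hle, if_pos hle, eval_X]
      · rw [if_neg hle, if_neg hle, map_zero, map_zero, mul_zero]
    rw [Finset.sum_congr rfl fun γ _ => h2 γ]
    have h3 := hcon (big e β)
    have h4 : ∑ γ : expo M ((M + 1) * e), (if rest e β ≤ γ.1 then
        (∏ j, q j ^ γ.1 j) * φ (coeff (comb (big e β) (N - (big e β : ℕ)) (γ.1 - rest e β)) F)
        else 0) = (∏ j, q j ^ rest e β j) * cf F N e q (big e β) := by
      unfold cf
      rw [Finset.mul_sum, ← Finset.sum_filter]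
      symm
      refine Finset.sum_bij' (i := fun δ hδ => (⟨rest e β + δ, ?_⟩ : expo M ((M + 1) * e)))
        (j := fun γ _ => γ.1 - rest e β) ?_ ?_ ?_ ?_ ?_
      · have h5 := β.2
        rw [← rest_add e β, mem_expo] at h5
        rw [mem_expo] at hδ ⊢
        rw [← h5]
        simp only [Finsupp.add_apply, Finset.sum_add_distrib, hδ]
        congr 1
        rw [Finset.sum_eq_single (big e β)]
        · simp
        · intro j _ hj
          rw [Finsupp.single_eq_of_ne hj]
        · simp
      · intro δ hδ
        rw [Finset.mem_filter]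
        exact ⟨Finset.mem_univ _, le_self_add⟩
      · intro γ hγ
        rw [Finset.mem_filter] at hγ
        have h5 := β.2
        have h6 := γ.2
        rw [← rest_add e β, mem_expo] at h5
        rw [mem_expo] at h6 ⊢
        have h7 : rest e β + (γ.1 - rest e β) = γ.1 := add_tsub_cancel_of_le hγ.2
        rw [← h7] at h6
        simp only [Finsupp.add_apply, Finset.sum_add_distrib] at h5 h6
        have h8 : ∑ j, (Finsupp.single (big e β) e) j = e := by
          rw [Finset.sum_eq_single (big e β)]
          · simp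
          · intro j _ hj
            rw [Finsupp.single_eq_of_ne hj]
          · simp
        omega
      · intro δ _
        exact add_tsub_cancel_left _ _
      · intro γ hγ
        rw [Finset.mem_filter] at hγ
        exact Subtype.ext (add_tsub_cancel_of_le hγ.2)
      · intro δ _
        simp only [Finsupp.add_apply, pow_add, Finset.prod_mul_distrib, add_tsub_cancel_left]
        ring
    rw [h4, h3, mul_zero]
  have hw0 := Matrix.eq_zero_of_vecMul_eq_zero hdet hw
  apply hq
  funext j
  have h9 : Finsupp.single j ((M + 1) * e) ∈ expo M ((M + 1) * e) := by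
    rw [mem_expo, Finset.sum_eq_single j]
    · simp
    · intro i _ hi
      rw [Finsupp.single_eq_of_ne hi]
    · simp
  have h10 := congrFun hw0 ⟨_, h9⟩
  have h11 : w ⟨_, h9⟩ = q j ^ ((M + 1) * e) := by
    show ∏ i, q i ^ (Finsupp.single j ((M + 1) * e)) i = _
    rw [Finset.prod_eq_single j]
    · simp
    · intro i _ hi
      rw [Finsupp.single_eq_of_ne hi, pow_zero]
    · simp
  rw [h11, Pi.zero_apply] at h10
  exact (pow_eq_zero_iff (by positivity)).1 h10

end

end Pool.Agent.H957R2
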