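import Pool.Agent.H957R2.Root
import Pool.Agent.H957R2.Macaulay

set_option autoImplicit false

namespace Pool.Agent.H957R2

open WithZero MvPolynomial

section

variable {M : ℕ}

theorem trdeg_ratFunc : Algebra.trdeg ℂ (RatFunc ℂ) = 1 := by
  have h1 : Algebra.trdeg ℂ (Polynomial ℂ) + Algebra.trdeg (Polynomial ℂ) (RatFunc ℂ) =
      Algebra.trdeg ℂ (RatFunc ℂ) := trdeg_add_eq ℂ (Polynomial ℂ)
  have h2 : Algebra.IsAlgebraic (Polynomial ℂ) (RatFunc ℂ) := 
    IsLocalization.isAlgebraic _ (nonZeroDivisors (Polynomial ℂ))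
  rw [← h1, Polynomial.trdeg_of_isDomain, trdeg_eq_zero, add_zero]

theorem Curve.fg {Z : ClosedSub M} (C : Curve Z) : (⊤ : IntermediateField ℂ C.K).FG := by
  classical
  refine ⟨((Set.finite_range (fun ij : Fin 2 × Fin 2 => C.pt.p ij.1 / C.pt.p ij.2)).union
    (Set.finite_range (fun ij : Fin (M + 1) × Fin (M + 1) => C.pt.q ij.1 / C.pt.q ij.2))).toFinset,
    ?_⟩
  rw [Set.Finite.coe_toFinset]
  exact C.gen

/-- the first projection -/
noncomputable def pr1 (Z : ClosedSub M) : Morphism Z 1 where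
  ι := Unit
  G _ j := X (Sum.inl j)
  bideg _ := (1, 0)
  bihom _ j := by
    constructor
    · exact isWeightedHomogeneous_X _ _ _
    · exact isWeightedHomogeneous_X _ _ _
  cover K _ _ P := by
    obtain ⟨j, hj⟩ := Function.ne_iff.1 P.hp
    refine ⟨(), j, ?_⟩
    simpa [Point.eval] using hj
  agree K _ _ P l l' j j' := by ring

/-- the second projection -/
noncomputable def pr2 (Z : ClosedSub M) : Morphism Z M where
  ι := Unit
  G _ j := X (Sum.inr j)
  bideg _ := (0, 1)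
  bihom _ j := by
    constructor
    · exact isWeightedHomogeneous_X _ _ _
    · exact isWeightedHomogeneous_X _ _ _
  cover K _ _ P := by
    obtain ⟨j, hj⟩ := Function.ne_iff.1 P.hq
    refine ⟨(), j, ?_⟩
    simpa [Point.eval] using hj
  agree K _ _ P l l' j j' := by ring

theorem degree_pr1 {Z : ClosedSub M} (C : Curve Z) : (pr1 Z).degree C = height C.pt.p := by
  unfold Morphism.degree
  congr 1
  funext j
  show C.pt.eval (X (Sum.inl j)) = _
  simp [Point.eval]

theorem degree_pr2 {Z : ClosedSub M} (C : Curve Z) : (pr2 Z).degree C = height C.pt.q := by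
  unfold Morphism.degree
  congr 1
  funext j
  show C.pt.eval (X (Sum.inr j)) = _
  simp [Point.eval]

/-- the linear form on `N_1` given by a morphism -/
noncomputable def degN {Z : ClosedSub M} {r : ℕ} (φ : Morphism Z r) : N1 Z →ₗ[ℝ] ℝ :=
  (numTriv Z).liftQ φ.degreeMap (iInf_le_of_le r (iInf_le _ φ))

theorem degN_mk {Z : ClosedSub M} {r : ℕ} (φ : Morphism Z r) (c : Curve Z →₀ ℝ) :
    degN φ ((numTriv Z).mkQ c) = φ.degreeMap c := rfl

theorem bound_cf {K : Type} [Field K] [Algebra ℂ K] (F : CoordRing M) (N e : ℕ)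
    (q : Fin (M + 1) → K) (i : ℕ) (v : Place K) : v.val (cf F N e q i) ≤ lmax v q ^ e := by
  unfold cf
  refine Valuation.map_sum_le v.val fun δ hδ => ?_
  rw [mem_expo] at hδ
  rw [map_mul, map_prod]
  have h1 : v.val (algebraMap ℂ K (coeff (comb i (N - i) δ) F)) ≤ 1 := by
    by_cases h : coeff (comb i (N - i) δ) F = 0
    · simp [h]
    · exact (v.trivial _ h).le
  refine (mul_le_of_le_one_left' h1).trans ?_
  calc ∏ j, v.val (q j ^ δ j) ≤ ∏ j, lmax v q ^ δ j := by
        refine Finset.prod_le_prod' fun j _ => ?_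
        rw [map_pow]
        exact pow_le_pow_left' (le_lmax v q j) _
    _ = lmax v q ^ e := by rw [Finset.prod_pow_eq_pow_sum, hδ]

/-- the inequality of intersection numbers on the hypersurface -/
theorem curve_ineq {Y : ClosedSub M} {N e : ℕ} (hMN : M ≤ N) (he : 0 < e) (F : CoordRing M)
    (hF : IsBihom F N e) (hΦ : eval (fun α => coeff α F) (Phi M N e) ≠ 0)
    (C : Curve (hyper Y F hF)) :
    (pr1 (hyper Y F hF)).degree C ≤ e * (pr2 (hyper Y F hF)).degree C := by
  rw [degree_pr1, degree_pr2]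
  obtain ⟨i, hi⟩ := exists_cf_ne_zero M N e he F hΦ C.pt.q C.pt.hq
  refine main_ineq C.trdeg C.fg N e (M + 1) (cf F N e C.pt.q) C.pt.p C.pt.hp C.pt.q C.pt.hq
    ⟨i, by have := i.2; omega, hi⟩ ?_ (fun i _ v => bound_cf F N e C.pt.q i v)
  rw [← aeval_bihom hF]
  exact C.pt.mem F (Or.inr rfl)

/-- the curve `P^1 × {q₀}` in `P^1 × B` -/
noncomputable def lineCurve (E : Set (MvPolynomial (Fin (M + 1)) ℂ))
    (hE : ∀ g ∈ E, ∃ n, g.IsHomogeneous n) (q₀ : Fin (M + 1) → ℂ) (hq₀ : q₀ ≠ 0)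
    (h0 : ∀ g ∈ E, eval q₀ g = 0) : Curve (prodP1 E hE) where
  K := RatFunc ℂ
  pt :=
    { p := ![RatFunc.X, 1]
      q := fun j => algebraMap ℂ (RatFunc ℂ) (q₀ j)
      hp := by
        intro h
        have := congrFun h 1
        simp at this
      hq := by
        intro h
        apply hq₀
        funext j
        have := congrFun h j
        exact (map_eq_zero_iff _ (algebraMap ℂ (RatFunc ℂ)).injective).1 this
      mem := by
        rintro f ⟨g, hg, rfl⟩
        rw [aeval_rename]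
        have h1 := MvPolynomial.aeval_algebraMap_apply (R := ℂ) (RatFunc ℂ) q₀ g
        rw [aeval_eq_eval, h0 g hg, map_zero] at h1
        exact h1 }
  trdeg := trdeg_ratFunc
  gen := by
    rw [eq_top_iff, ← RatFunc.adjoin_X, IntermediateField.adjoin_simple_le_iff]
    refine IntermediateField.subset_adjoin _ _ (Or.inl ⟨(0, 1), ?_⟩)
    simp

theorem lineCurve_degree1 (E : Set (MvPolynomial (Fin (M + 1)) ℂ))
    (hE : ∀ g ∈ E, ∃ n, g.IsHomogeneous n) (q₀ : Fin (M + 1) → ℂ) (hq₀ : q₀ ≠ 0)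
    (h0 : ∀ g ∈ E, eval q₀ g = 0) :
    0 < (pr1 (prodP1 E hE)).degree (lineCurve E hE q₀ hq₀ h0) := by
  rw [degree_pr1]
  set C := lineCurve E hE q₀ hq₀ h0
  have htr : Algebra.trdeg ℂ (RatFunc ℂ) = 1 := trdeg_ratFunc
  have hfg : (⊤ : IntermediateField ℂ (RatFunc ℂ)).FG := C.fg
  show 0 < height (![RatFunc.X, 1] : Fin 2 → RatFunc ℂ)
  have hT : Transcendental ℂ (RatFunc.X : RatFunc ℂ)⁻¹ := by
    intro h
    have := h.inv
    rw [inv_inv] at this
    exact RatFunc.transcendental_X this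
  have hex : ∃ v : Place (RatFunc ℂ), v.val (RatFunc.X : RatFunc ℂ)⁻¹ < 1 := by
    by_contra hcon
    push Not at hcon
    have h1 := (zeros_adjoin htr hfg hT).2
    have h2 : {v : Place (RatFunc ℂ) | v.val (RatFunc.X : RatFunc ℂ)⁻¹ < 1} = ∅ := by
      ext v
      simpa using hcon v
    rw [h2, finsum_mem_empty] at h1
    have h3 := finite_over_adjoin htr hfg hT
    have h4 : 0 < Module.finrank (IntermediateField.adjoin ℂ {(RatFunc.X : RatFunc ℂ)⁻¹})
      (RatFunc ℂ) := Module.finrank_pos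
    omega
  obtain ⟨v, hv⟩ := hex
  have hx0 : (![RatFunc.X, 1] : Fin 2 → RatFunc ℂ) ≠ 0 := by
    intro h
    have := congrFun h 1
    simp at this
  have hlm : ∀ w : Place (RatFunc ℂ), 0 ≤ log (lmax w (![RatFunc.X, 1] : Fin 2 → RatFunc ℂ)) := by
    intro w
    have h5 := le_lmax w (![RatFunc.X, 1] : Fin 2 → RatFunc ℂ) 1
    simp only [Matrix.cons_val_one, Matrix.cons_val_fin_one, map_one] at h5
    have h6 := (log_le_log one_ne_zero (lmax_ne_zero w _ hx0)).2 h5
    rwa [log_one] at h6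
  have hfin := finite_supp htr hfg _ hx0
  have hvpos : 0 < log (lmax v (![RatFunc.X, 1] : Fin 2 → RatFunc ℂ)) := by
    have h5 := le_lmax v (![RatFunc.X, 1] : Fin 2 → RatFunc ℂ) 0
    simp only [Matrix.cons_val_zero] at h5
    have h7 : 0 < v.val (RatFunc.X : RatFunc ℂ) :=
      zero_lt_iff.2 ((Valuation.ne_zero_iff _).2 RatFunc.X_ne_zero)
    rw [map_inv₀, inv_lt_one₀ h7] at hv
    have h8 := (log_lt_log one_ne_zero (lmax_ne_zero v _ hx0)).2 (hv.trans_le h5)
    rwa [log_one] at h8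
  rw [height_eq, finsum_eq_sum_of_support_subset _ (s := hfin.toFinset)
    (by rw [Set.Finite.coe_toFinset])]
  refine Finset.sum_pos' (fun w _ => hlm w) ⟨v, ?_, hvpos⟩
  rw [Set.Finite.mem_toFinset, Function.mem_support]
  exact hvpos.ne'

theorem lineCurve_degree2 (E : Set (MvPolynomial (Fin (M + 1)) ℂ))
    (hE : ∀ g ∈ E, ∃ n, g.IsHomogeneous n) (q₀ : Fin (M + 1) → ℂ) (hq₀ : q₀ ≠ 0)
    (h0 : ∀ g ∈ E, eval q₀ g = 0) :
    (pr2 (prodP1 E hE)).degree (lineCurve E hE q₀ hq₀ h0) = 0 := by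
  rw [degree_pr2]
  show height (fun j => algebraMap ℂ (RatFunc ℂ) (q₀ j)) = 0
  rw [height_eq]
  have h1 : ∀ v : Place (RatFunc ℂ), lmax v (fun j => algebraMap ℂ (RatFunc ℂ) (q₀ j)) = 1 := by
    intro v
    apply le_antisymm
    · refine lmax_le v _ _ fun j => ?_
      by_cases h : q₀ j = 0
      · simp [h]
      · exact (v.trivial _ h).le
    · obtain ⟨j, hj⟩ := Function.ne_iff.1 hq₀
      rw [← v.trivial (q₀ j) hj]
      exact le_lmax v (fun j => algebraMap ℂ (RatFunc ℂ) (q₀ j)) j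
  rw [finsum_congr (fun v => by rw [h1 v, log_one]), finsum_zero]

/-- linear forms which are nonnegative on curves are nonnegative on `Eff1` -/
theorem nonneg_on_Eff1 {Z : ClosedSub M} (f : N1 Z →ₗ[ℝ] ℝ)
    (hf : ∀ C : Curve Z, 0 ≤ f ((numTriv Z).mkQ (Finsupp.single C 1))) (x : N1 Z) (hx : x ∈ Eff1 Z) :
    0 ≤ f x := by
  let _ : TopologicalSpace (N1 Z) := moduleTopology ℝ (N1 Z)
  have : IsModuleTopology ℝ (N1 Z) := ⟨rfl⟩
  have hcont : Continuous f := IsModuleTopology.continuous_of_linearMap f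
  have hclosed : IsClosed {y : N1 Z | 0 ≤ f y} := isClosed_le continuous_const hcont
  have hsub : curveCone Z ⊆ {y : N1 Z | 0 ≤ f y} := by
    rintro y ⟨c, hc, rfl⟩
    show 0 ≤ f ((numTriv Z).mkQ c)
    have h1 : c = c.sum fun C t => t • Finsupp.single C (1 : ℝ) := by
      conv_lhs => rw [← Finsupp.sum_single c]
      refine Finsupp.sum_congr fun C _ => ?_
      rw [Finsupp.smul_single, smul_eq_mul, mul_one]
    rw [h1, Finsupp.sum, map_sum, map_sum]
    refine Finset.sum_nonneg fun C _ => ?_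
    rw [map_smul, map_smul, smul_eq_mul]
    exact mul_nonneg (hc C) (hf C)
  exact closure_minimal hsub hclosed hx

theorem curve_mem_Eff1 {Z : ClosedSub M} (C : Curve Z) :
    (numTriv Z).mkQ (Finsupp.single C 1) ∈ Eff1 Z := by
  let _ : TopologicalSpace (N1 Z) := moduleTopology ℝ (N1 Z)
  refine subset_closure ⟨Finsupp.single C 1, fun D => ?_, rfl⟩
  classical
  rw [Finsupp.single_apply]
  split_ifs <;> norm_num

theorem main (E : Set (MvPolynomial (Fin (M + 1)) ℂ))
    (hE : ∀ g ∈ E, ∃ n, g.IsHomogeneous n) (hne : ∃ q₀ : Fin (M + 1) → ℂ, q₀ ≠ 0 ∧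
      ∀ g ∈ E, eval q₀ g = 0) (N e : ℕ) (hMN : M ≤ N) (he : 0 < e) (F : CoordRing M)
    (hF : IsBihom F N e) (hΦ : eval (fun α => coeff α F) (Phi M N e) ≠ 0) :
    push (hyper_le (prodP1 E hE) F hF) '' Eff1 (hyper (prodP1 E hE) F hF) ≠
      Eff1 (prodP1 E hE) := by
  obtain ⟨q₀, hq₀, h0⟩ := hne
  intro heq
  set Y := prodP1 E hE with hY
  set Z := hyper Y F hF with hZ
  have hYZ : Y.eqs ⊆ Z.eqs := hyper_le Y F hF
  let L := lineCurve E hE q₀ hq₀ h0
  let f : N1 Y →ₗ[ℝ] ℝ := (e : ℝ) • degN (pr2 Y) - degN (pr1 Y)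
  have hL : (numTriv Y).mkQ (Finsupp.single L 1) ∈ Eff1 Y := curve_mem_Eff1 L
  rw [← heq] at hL
  obtain ⟨x, hx, hxL⟩ := hL
  have h1 : 0 ≤ (f ∘ₗ push hYZ) x := by
    refine nonneg_on_Eff1 _ (fun C => ?_) x hx
    have h2 : push hYZ ((numTriv Z).mkQ (Finsupp.single C 1)) =
        (numTriv Y).mkQ (Finsupp.single (C.incl hYZ) 1) := by
      unfold push
      rw [Submodule.mkQ_apply, Submodule.mapQ_apply, Submodule.mkQ_apply]
      congr 1
      exact Finsupp.mapDomain_single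
    rw [LinearMap.comp_apply, h2]
    show 0 ≤ (e : ℝ) * degN (pr2 Y) _ - degN (pr1 Y) _
    rw [degN_mk, degN_mk]
    unfold Morphism.degreeMap
    rw [Finsupp.linearCombination_single, Finsupp.linearCombination_single, one_smul, one_smul]
    have h3 := curve_ineq hMN he F hF hΦ C
    rw [degree_pr1, degree_pr2] at h3
    rw [degree_pr1, degree_pr2]
    have h4 : ((height C.pt.p : ℤ) : ℝ) ≤ (e : ℝ) * (height C.pt.q : ℤ) := by exact_mod_cast h3
    have h5 : (height (C.incl hYZ).pt.p : ℤ) = height C.pt.p := rfl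
    have h6 : (height (C.incl hYZ).pt.q : ℤ) = height C.pt.q := rfl
    rw [h5, h6]
    linarith
  rw [LinearMap.comp_apply] at h1
  have hxL' : push hYZ x = (numTriv Y).mkQ (Finsupp.single L 1) := hxL
  rw [hxL'] at h1
  have h7 : f ((numTriv Y).mkQ (Finsupp.single L 1)) =
      (e : ℝ) * ((pr2 Y).degree L : ℝ) - ((pr1 Y).degree L : ℝ) := by
    show (e : ℝ) * degN (pr2 Y) _ - degN (pr1 Y) _ = _
    rw [degN_mk, degN_mk]
    unfold Morphism.degreeMap
    rw [Finsupp.linearCombination_single, Finsupp.linearCombination_single, one_smul, one_smul]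
  rw [h7, lineCurve_degree2 E hE q₀ hq₀ h0] at h1
  have h8 := lineCurve_degree1 E hE q₀ hq₀ h0
  have h9 : (0 : ℝ) < ((pr1 Y).degree L : ℝ) := by exact_mod_cast h8
  simp only [Int.cast_zero, mul_zero, zero_sub] at h1
  linarith

end

end Pool.Agent.H957R2
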