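import Pool.Agent.H957R2.Defs

set_option autoImplicit false

namespace Pool.Agent.H957R2

open MvPolynomial

section

variable {M : ℕ}

/-- the exponent with entries `i, k` on the first two variables and `δ` on the others -/
noncomputable def comb (i k : ℕ) (δ : Fin (M + 1) →₀ ℕ) : (Fin 2 ⊕ Fin (M + 1)) →₀ ℕ :=
  Finsupp.single (Sum.inl 0) i + Finsupp.single (Sum.inl 1) k + δ.mapDomain Sum.inr

theorem comb_inl0 (i k : ℕ) (δ : Fin (M + 1) →₀ ℕ) : comb i k δ (Sum.inl 0) = i := by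
  unfold comb
  rw [Finsupp.add_apply, Finsupp.add_apply, Finsupp.mapDomain_of_notMem_range _ _ (by simp)]
  simp

theorem comb_inl1 (i k : ℕ) (δ : Fin (M + 1) →₀ ℕ) : comb i k δ (Sum.inl 1) = k := by
  unfold comb
  rw [Finsupp.add_apply, Finsupp.add_apply, Finsupp.mapDomain_of_notMem_range _ _ (by simp)]
  simp

theorem comb_inr (i k : ℕ) (δ : Fin (M + 1) →₀ ℕ) (j : Fin (M + 1)) :
    comb i k δ (Sum.inr j) = δ j := by
  unfold comb
  rw [Finsupp.add_apply, Finsupp.add_apply, Finsupp.mapDomain_apply Sum.inr_injective]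
  simp

/-- exponents of degree `e` -/
noncomputable def expo (M e : ℕ) : Finset (Fin (M + 1) →₀ ℕ) :=
  Finset.finsuppAntidiag Finset.univ e

theorem mem_expo {e : ℕ} {δ : Fin (M + 1) →₀ ℕ} : δ ∈ expo M e ↔ ∑ j, δ j = e := by
  unfold expo
  rw [Finset.mem_finsuppAntidiag]
  simp

theorem comb_inj (N : ℕ) : Set.InjOn
    (fun x : ℕ × (Fin (M + 1) →₀ ℕ) => comb x.1 (N - x.1) x.2) Set.univ := by
  rintro ⟨i, δ⟩ _ ⟨i', δ'⟩ _ h
  simp only at h
  have h1 : i = i' := by
    have := DFunLike.congr_fun h (Sum.inl 0)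
    rwa [comb_inl0, comb_inl0] at this
  have h2 : δ = δ' := by
    ext j
    have := DFunLike.congr_fun h (Sum.inr j)
    rwa [comb_inr, comb_inr] at this
  rw [h1, h2]

/-- weights of exponents -/
theorem weight1 (α : (Fin 2 ⊕ Fin (M + 1)) →₀ ℕ) :
    Finsupp.weight (Sum.elim (fun _ => 1) (fun _ => 0) : Fin 2 ⊕ Fin (M + 1) → ℕ) α =
      α (Sum.inl 0) + α (Sum.inl 1) := by
  rw [Finsupp.weight_apply, Finsupp.sum_fintype _ _ (by simp), Fintype.sum_sum_type]
  simp [Fin.sum_univ_two]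

theorem weight2 (α : (Fin 2 ⊕ Fin (M + 1)) →₀ ℕ) :
    Finsupp.weight (Sum.elim (fun _ => 0) (fun _ => 1) : Fin 2 ⊕ Fin (M + 1) → ℕ) α =
      ∑ j, α (Sum.inr j) := by
  rw [Finsupp.weight_apply, Finsupp.sum_fintype _ _ (by simp), Fintype.sum_sum_type]
  simp

theorem eq_comb_of_bihom {F : CoordRing M} {N e : ℕ} (hF : IsBihom F N e)
    {α : (Fin 2 ⊕ Fin (M + 1)) →₀ ℕ} (hα : coeff α F ≠ 0) :
    ∃ x ∈ Finset.range (N + 1) ×ˢ expo M e, comb x.1 (N - x.1) x.2 = α := by
  have h1 := hF.1 hα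
  have h2 := hF.2 hα
  rw [weight1] at h1
  rw [weight2] at h2
  refine ⟨(α (Sum.inl 0), α.comapDomain Sum.inr Sum.inr_injective.injOn), ?_, ?_⟩
  · rw [Finset.mem_product, Finset.mem_range, mem_expo]
    refine ⟨by show α (Sum.inl 0) < N + 1; omega, ?_⟩
    simpa using h2
  · ext x
    rcases x with x | x
    · fin_cases x
      · exact comb_inl0 _ _ _
      · refine (comb_inl1 _ _ _).trans ?_
        show N - α (Sum.inl 0) = α (Sum.inl 1)
        omega
    · refine (comb_inr _ _ _ _).trans ?_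
      simp

/-- the coefficient forms of `F` evaluated at `q` -/
noncomputable def cf {K : Type} [Field K] [Algebra ℂ K] (F : CoordRing M) (N e : ℕ)
    (q : Fin (M + 1) → K) (i : ℕ) : K :=
  ∑ δ ∈ expo M e, algebraMap ℂ K (coeff (comb i (N - i) δ) F) * ∏ j, q j ^ δ j

theorem aeval_bihom {K : Type} [Field K] [Algebra ℂ K] {F : CoordRing M} {N e : ℕ}
    (hF : IsBihom F N e) (p : Fin 2 → K) (q : Fin (M + 1) → K) :
    aeval (Sum.elim p q) F =
      ∑ i ∈ Finset.range (N + 1), cf F N e q i * (p 0 ^ i * p 1 ^ (N - i)) := by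
  classical
  rw [aeval_def, eval₂_eq']
  have hsub : F.support ⊆ (Finset.range (N + 1) ×ˢ expo M e).image
      (fun x : ℕ × (Fin (M + 1) →₀ ℕ) => comb x.1 (N - x.1) x.2) := by
    intro α hα
    rw [mem_support_iff] at hα
    obtain ⟨x, hx, hx2⟩ := eq_comb_of_bihom hF hα
    exact Finset.mem_image.2 ⟨x, hx, hx2⟩
  rw [Finset.sum_subset hsub (fun α _ hα => by
    rw [notMem_support_iff.1 hα, map_zero, zero_mul])]
  rw [Finset.sum_image (fun x _ y _ h => comb_inj N (Set.mem_univ x) (Set.mem_univ y) h),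
    Finset.sum_product]
  refine Finset.sum_congr rfl fun i _ => ?_
  unfold cf
  rw [Finset.sum_mul]
  refine Finset.sum_congr rfl fun δ _ => ?_
  rw [Fintype.prod_sum_type, Fin.prod_univ_two]
  simp only [Sum.elim_inl, Sum.elim_inr, comb_inl0, comb_inl1, comb_inr]
  ring

end

end Pool.Agent.H957R2
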