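import Pool.Agent.H957R2.Zeros

set_option autoImplicit false

namespace Pool.Agent.H957R2

open Polynomial IsDedekindDomain WithZero
open scoped IntermediateField

section

variable {K : Type} [Field K] [Algebra ℂ K]

theorem finite_over_adjoin (htr : Algebra.trdeg ℂ K = 1) (hfg : (⊤ : IntermediateField ℂ K).FG)
    {y : K} (hy : Transcendental ℂ y) : FiniteDimensional ℂ⟮y⟯ K := by
  have h1 : AlgebraicIndependent ℂ (fun _ : Unit => y) :=
    algebraicIndependent_unique_type_iff.2 hy
  have h2 : IsTranscendenceBasis ℂ (fun _ : Unit => y) :=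
    h1.isTranscendenceBasis_of_trdeg_le_of_finite (by rw [htr]; simp)
  have h3 := h2.isAlgebraic_field
  rw [Set.range_const] at h3
  obtain ⟨S, hS⟩ := hfg
  have h4 : IntermediateField.adjoin ℂ⟮y⟯ (S : Set K) = ⊤ := by
    have h5 : (⊤ : IntermediateField ℂ K) ≤
        (IntermediateField.adjoin ℂ⟮y⟯ (S : Set K)).restrictScalars ℂ := by
      rw [← hS, IntermediateField.adjoin_le_iff]
      exact IntermediateField.subset_adjoin _ _
    rw [eq_top_iff]
    intro z _
    exact h5 (show z ∈ (⊤ : IntermediateField ℂ K) from trivial)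
  have h6 : FiniteDimensional ℂ⟮y⟯ (IntermediateField.adjoin ℂ⟮y⟯ (S : Set K)) := by
    have := S.finite_toSet
    refine IntermediateField.finiteDimensional_adjoin fun x _ => ?_
    exact (h3.isAlgebraic x).isIntegral
  rw [h4] at h6
  exact Module.Finite.equiv (IntermediateField.topEquiv (F := ℂ⟮y⟯) (E := K)).toLinearEquiv

theorem zeros_adjoin (htr : Algebra.trdeg ℂ K = 1) (hfg : (⊤ : IntermediateField ℂ K).FG)
    {y : K} (hy : Transcendental ℂ y) :
    {v : Place K | v.val y < 1}.Finite ∧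
    ∑ᶠ v ∈ {v : Place K | v.val y < 1}, log (v.val y) = - (Module.finrank ℂ⟮y⟯ K : ℤ) := by
  have hfin := finite_over_adjoin htr hfg hy
  let _ : Algebra ℂ[X] ℂ⟮y⟯ := (aeval (IntermediateField.AdjoinSimple.gen ℂ y)).toAlgebra
  let _ : Algebra ℂ[X] K := (aeval y).toAlgebra
  have ht : IsScalarTower ℂ[X] ℂ⟮y⟯ K := by
    refine IsScalarTower.of_algebraMap_eq fun p => ?_
    show aeval y p = algebraMap ℂ⟮y⟯ K (aeval (IntermediateField.AdjoinSimple.gen ℂ y) p)
    rw [← aeval_algebraMap_apply, IntermediateField.AdjoinSimple.algebraMap_gen]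
  have ht2 : IsScalarTower ℂ ℂ[X] K := by
    refine IsScalarTower.of_algebraMap_eq fun c => ?_
    show _ = aeval y (C c)
    rw [aeval_C]
  have hinj : FaithfulSMul ℂ[X] ℂ⟮y⟯ := by
    rw [faithfulSMul_iff_algebraMap_injective]
    have h1 : Function.Injective (algebraMap ℂ[X] K) := transcendental_iff_injective.1 hy
    rw [IsScalarTower.algebraMap_eq ℂ[X] ℂ⟮y⟯ K, RingHom.coe_comp] at h1
    exact Function.Injective.of_comp h1
  have hfrac : IsFractionRing ℂ[X] ℂ⟮y⟯ := by
    refine IsFractionRing.of_field _ _ fun z => ?_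
    obtain ⟨r, s, hrs⟩ := IntermediateField.mem_adjoin_simple_iff (F := ℂ) (α := y) (z : K) |>.1 z.2
    refine ⟨r, s, Subtype.ext ?_⟩
    rw [hrs]
    have h2 : ∀ p : ℂ[X], aeval y p = ((algebraMap ℂ[X] ℂ⟮y⟯ p : ℂ⟮y⟯) : K) := fun p =>
      ht.algebraMap_apply _ _ _ p
    rw [h2, h2]
    rfl
  have h := zeros_sum ℂ⟮y⟯ K
  have hX : algebraMap ℂ[X] K X = y := aeval_X y
  rw [hX] at h
  exact h

theorem product_formula (htr : Algebra.trdeg ℂ K = 1) (hfg : (⊤ : IntermediateField ℂ K).FG)
    {x : K} (hx : x ≠ 0) :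
    {v : Place K | v.val x ≠ 1}.Finite ∧ ∑ᶠ v : Place K, log (v.val x) = 0 := by
  by_cases hxt : Transcendental ℂ x
  · have hxi : Transcendental ℂ x⁻¹ := by
      intro h
      have := h.inv
      rw [inv_inv] at this
      exact hxt this
    obtain ⟨f1, s1⟩ := zeros_adjoin htr hfg hxt
    obtain ⟨f2, s2⟩ := zeros_adjoin htr hfg hxi
    have hset : {v : Place K | v.val x ≠ 1} = {v : Place K | v.val x < 1} ∪
        {v : Place K | v.val x⁻¹ < 1} := by
      ext v
      have h5 : 0 < v.val x := zero_lt_iff.2 ((Valuation.ne_zero_iff _).2 hx)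
      simp only [Set.mem_ofPred_eq, Set.mem_union, map_inv₀, inv_lt_one₀ h5]
      exact lt_or_lt_iff_ne.symm
    have hdisj : Disjoint {v : Place K | v.val x < 1} {v : Place K | v.val x⁻¹ < 1} := by
      rw [Set.disjoint_left]
      intro v h1 h2
      have h5 : 0 < v.val x := zero_lt_iff.2 ((Valuation.ne_zero_iff _).2 hx)
      simp only [Set.mem_ofPred_eq, map_inv₀, inv_lt_one₀ h5] at h1 h2
      exact lt_asymm h1 h2
    refine ⟨by rw [hset]; exact f1.union f2, ?_⟩
    have h3 : ∑ᶠ v : Place K, log (v.val x) = ∑ᶠ v ∈ {v : Place K | v.val x ≠ 1}, log (v.val x) := by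
      rw [finsum_mem_def]
      refine finsum_congr fun v => ?_
      by_cases hv : v.val x = 1
      · simp [hv]
      · rw [Set.indicator_of_mem (show v ∈ {v : Place K | v.val x ≠ 1} from hv)]
    rw [h3, hset, finsum_mem_union hdisj f1 f2, s1]
    have h4 : ∑ᶠ v ∈ {v : Place K | v.val x⁻¹ < 1}, log (v.val x) =
        - ∑ᶠ v ∈ {v : Place K | v.val x⁻¹ < 1}, log (v.val x⁻¹) := by
      rw [← finsum_mem_neg_distrib _ f2]
      refine finsum_mem_congr rfl fun v _ => ?_
      rw [map_inv₀, log_inv, neg_neg]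
    rw [h4, s2]
    have h6 : ℂ⟮x⁻¹⟯ = ℂ⟮x⟯ := by
      apply le_antisymm
      · rw [IntermediateField.adjoin_simple_le_iff]
        exact inv_mem (IntermediateField.mem_adjoin_simple_self ℂ x)
      · rw [IntermediateField.adjoin_simple_le_iff]
        have := inv_mem (IntermediateField.mem_adjoin_simple_self ℂ x⁻¹)
        rwa [inv_inv] at this
    rw [h6]
    ring
  · have hal : IsAlgebraic ℂ x := by
      unfold Transcendental at hxt
      push Not at hxt
      exact hxt
    obtain ⟨c, rfl⟩ : ∃ c : ℂ, algebraMap ℂ K c = x := by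
      exact minpoly.mem_range_of_degree_eq_one ℂ x
        (IsAlgClosed.degree_eq_one_of_irreducible ℂ (minpoly.irreducible hal.isIntegral))
    have hc : c ≠ 0 := by
      rintro rfl
      simp at hx
    have h7 : ∀ v : Place K, v.val (algebraMap ℂ K c) = 1 := fun v => v.trivial c hc
    refine ⟨?_, ?_⟩
    · convert Set.finite_empty
      ext v
      simp [h7 v]
    · simp [h7]

end

end Pool.Agent.H957R2
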