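import Pool.Agent.H957R2.Defs
import Pool.Agent.H957R2.Prod

set_option autoImplicit false

namespace Pool.Agent.H957R2

open WithZero

theorem finsum_mono957 {α : Type} {f g : α → ℤ} (hf : (Function.support f).Finite)
    (hg : (Function.support g).Finite) (h : ∀ a, f a ≤ g a) : ∑ᶠ a, f a ≤ ∑ᶠ a, g a := by
  classical
  have hs : ((hf.union hg).toFinset : Set α) = Function.support f ∪ Function.support g :=
    Set.Finite.coe_toFinset _
  rw [finsum_eq_sum_of_support_subset f (s := (hf.union hg).toFinset)
      (by rw [hs]; exact Set.subset_union_left),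
    finsum_eq_sum_of_support_subset g (s := (hf.union hg).toFinset)
      (by rw [hs]; exact Set.subset_union_right)]
  exact Finset.sum_le_sum fun a _ => h a

section

variable {K : Type} [Field K] [Algebra ℂ K]

/-- the local maximum -/
noncomputable def lmax {n : ℕ} (v : Place K) (x : Fin n → K) : WithZero (Multiplicative ℤ) :=
  Finset.univ.sup fun j => v.val (x j)

theorem height_eq {n : ℕ} (x : Fin n → K) : height x = ∑ᶠ v : Place K, log (lmax v x) := rfl

theorem le_lmax {n : ℕ} (v : Place K) (x : Fin n → K) (j : Fin n) : v.val (x j) ≤ lmax v x :=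
  Finset.le_sup (f := fun j => v.val (x j)) (Finset.mem_univ j)

theorem lmax_le {n : ℕ} (v : Place K) (x : Fin n → K) (a : WithZero (Multiplicative ℤ))
    (h : ∀ j, v.val (x j) ≤ a) : lmax v x ≤ a :=
  Finset.sup_le fun j _ => h j

theorem lmax_ne_zero {n : ℕ} (v : Place K) (x : Fin n → K) (hx : x ≠ 0) : lmax v x ≠ 0 := by
  obtain ⟨j, hj⟩ := Function.ne_iff.1 hx
  intro h
  have h1 := le_lmax v x j
  rw [h] at h1
  exact hj ((Valuation.zero_iff v.val).1 (le_antisymm h1 zero_le))

theorem exists_lmax {n : ℕ} (v : Place K) (x : Fin n → K) (hx : x ≠ 0) :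
    ∃ j, x j ≠ 0 ∧ lmax v x = v.val (x j) := by
  have h0 := lmax_ne_zero v x hx
  obtain ⟨j0, hj0⟩ := Function.ne_iff.1 hx
  obtain ⟨j, _, hj⟩ := Finset.exists_mem_eq_sup Finset.univ ⟨j0, Finset.mem_univ _⟩
    (fun j => v.val (x j))
  refine ⟨j, ?_, hj⟩
  intro h
  apply h0
  show Finset.univ.sup _ = _
  rw [hj, h, map_zero]

theorem lmax_smul {n : ℕ} (v : Place K) (c : K) (x : Fin n → K) :
    lmax v (c • x) = v.val c * lmax v x := by
  by_cases hx : x = 0
  · subst hx
    rw [smul_zero]
    have : lmax v (0 : Fin n → K) = 0 := le_antisymm (lmax_le v _ _ (by simp)) zero_le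
    rw [this, mul_zero]
  · apply le_antisymm
    · refine lmax_le v _ _ fun j => ?_
      rw [Pi.smul_apply, smul_eq_mul, map_mul]
      exact mul_le_mul_right (le_lmax v x j) _
    · obtain ⟨j, _, hj⟩ := exists_lmax v x hx
      rw [hj, ← map_mul]
      exact le_lmax v (c • x) j

variable (htr : Algebra.trdeg ℂ K = 1) (hfg : (⊤ : IntermediateField ℂ K).FG)

include htr hfg

theorem finite_supp {n : ℕ} (x : Fin n → K) (hx : x ≠ 0) :
    (Function.support fun v : Place K => log (lmax v x)).Finite := by
  classical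
  have h : (Function.support fun v : Place K => log (lmax v x)) ⊆
      ⋃ j ∈ Finset.univ.filter (fun j => x j ≠ 0), {v : Place K | v.val (x j) ≠ 1} := by
    intro v hv
    obtain ⟨j, hj0, hj⟩ := exists_lmax v x hx
    rw [Function.mem_support, hj] at hv
    simp only [Finset.mem_filter, Finset.mem_univ, true_and, Set.mem_iUnion, Set.mem_ofPred_eq]
    refine ⟨j, hj0, fun h1 => hv ?_⟩
    rw [h1, log_one]
  refine Set.Finite.subset ?_ h
  refine Set.Finite.biUnion (Finset.finite_toSet _) fun j hj => ?_
  exact (product_formula htr hfg (by simpa using hj)).1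

theorem finite_supp1 (x : K) (hx : x ≠ 0) :
    (Function.support fun v : Place K => log (v.val x)).Finite := by
  refine Set.Finite.subset (product_formula htr hfg hx).1 ?_
  intro v hv h1
  rw [Function.mem_support, h1, log_one] at hv
  exact hv rfl

/-- heights are compared place by place -/
theorem height_le_of {n m : ℕ} (x : Fin n → K) (y : Fin m → K) (e : ℕ) (hx : x ≠ 0) (hy : y ≠ 0)
    (h : ∀ v : Place K, lmax v x ≤ lmax v y ^ e) : height x ≤ e * height y := by
  rw [height_eq, height_eq]
  have h2 : (e : ℤ) * ∑ᶠ v : Place K, log (lmax v y) = ∑ᶠ v : Place K, (e : ℤ) * log (lmax v y) :=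
    mul_finsum _ _ 
  rw [h2]
  refine finsum_mono957 (finite_supp htr hfg x hx) ?_ ?_
  · refine (finite_supp htr hfg y hy).subset ?_
    intro v hv h1
    rw [Function.mem_support] at hv
    apply hv
    simp only [h1, mul_zero]
  · intro v
    have h3 := h v
    have h4 := lmax_ne_zero v x hx
    have h5 := lmax_ne_zero v y hy
    show log _ ≤ _ * log _
    rw [← nsmul_eq_mul, ← log_pow]
    exact (log_le_log h4 (pow_ne_zero _ h5)).2 h3

theorem height_smul {n : ℕ} (c : K) (hc : c ≠ 0) (x : Fin n → K) (hx : x ≠ 0) :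
    height (c • x) = height x := by
  rw [height_eq, height_eq]
  have h1 : ∀ v : Place K, log (lmax v (c • x)) = log (v.val c) + log (lmax v x) := by
    intro v
    rw [lmax_smul, log_mul ((Valuation.ne_zero_iff _).2 hc) (lmax_ne_zero v x hx)]
  simp_rw [h1]
  rw [finsum_add_distrib (finite_supp1 htr hfg c hc) (finite_supp htr hfg x hx),
    (product_formula htr hfg hc).2, zero_add]

theorem height_nonneg {n : ℕ} (x : Fin n → K) (hx : x ≠ 0) : 0 ≤ height x := by
  obtain ⟨j, hj⟩ := Function.ne_iff.1 hx
  have hj' : x j ≠ 0 := hj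
  rw [← (product_formula htr hfg hj').2, height_eq]
  refine finsum_mono957 (finite_supp1 htr hfg _ hj') (finite_supp htr hfg x hx) ?_
  intro v
  exact (log_le_log ((Valuation.ne_zero_iff _).2 hj') (lmax_ne_zero v x hx)).2 (le_lmax v x j)

end

end Pool.Agent.H957R2
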