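import Pool.Agent.H957R2.Defs

set_option autoImplicit false

namespace Pool.Agent.H957R2

open Polynomial IsDedekindDomain WithZero

theorem Place.ext' {K : Type} [Field K] [Algebra ℂ K] {v w : Place K} (h : v.val = w.val) :
    v = w := by
  cases v; cases w; cases h; rfl

section Dedekind

variable {S K : Type} [CommRing S] [IsDedekindDomain S] [Field K] [Algebra S K]
  [IsFractionRing S K] [Algebra ℂ S] [Algebra ℂ K] [IsScalarTower ℂ S K]

/-- the place attached to a maximal ideal of a Dedekind domain -/
noncomputable def placeOf (P : HeightOneSpectrum S) : Place K where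
  val := P.valuation K
  surj := P.valuation_surjective K
  trivial := by
    intro c hc
    rw [IsScalarTower.algebraMap_apply ℂ S K, HeightOneSpectrum.valuation_eq_one_iff_notMem]
    intro h
    have h1 : algebraMap ℂ S c * algebraMap ℂ S c⁻¹ ∈ P.asIdeal :=
      Ideal.mul_mem_right _ _ h
    rw [← map_mul, mul_inv_cancel₀ hc, map_one] at h1
    exact P.isPrime.ne_top ((Ideal.eq_top_iff_one _).2 h1)

theorem placeOf_injective : Function.Injective (placeOf : HeightOneSpectrum S → Place K) := by
  intro P Q h
  have h1 : P.valuation K = Q.valuation K := congrArg Place.val h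
  refine HeightOneSpectrum.eq_of_valuation_isEquiv_valuation (K := K) ?_
  rw [h1]

/-- a place which is nonnegative on `S` and not trivial on `S` comes from a maximal ideal -/
theorem exists_placeOf (v : Place K) (h1 : ∀ s : S, v.val (algebraMap S K s) ≤ 1)
    (h2 : ∃ s : S, s ≠ 0 ∧ v.val (algebraMap S K s) < 1) :
    ∃ P : HeightOneSpectrum S, placeOf P = v := by
  let I : Ideal S := 
    { carrier := {s | v.val (algebraMap S K s) < 1}
      add_mem' := by
        intro a b ha hb
        simp only [Set.mem_ofPred_eq, map_add] at *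
        exact lt_of_le_of_lt (Valuation.map_add v.val _ _) (max_lt ha hb)
      zero_mem' := by simp
      smul_mem' := by
        intro c x hx
        simp only [Set.mem_ofPred_eq, smul_eq_mul, map_mul] at *
        exact lt_of_le_of_lt (mul_le_of_le_one_left' (h1 c)) hx }
  have hI : ∀ s, s ∈ I ↔ v.val (algebraMap S K s) < 1 := fun s => Iff.rfl
  have hprime : I.IsPrime := by
    refine ⟨?_, ?_⟩
    · intro h
      have : (1 : S) ∈ I := by rw [h]; trivial
      rw [hI] at this
      simp at this
    · intro a b hab
      by_contra hcon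
      push Not at hcon
      obtain ⟨ha, hb⟩ := hcon
      rw [hI, not_lt] at ha hb
      rw [hI, map_mul, map_mul] at hab
      have ha' : v.val (algebraMap S K a) = 1 := le_antisymm (h1 a) ha
      have hb' : v.val (algebraMap S K b) = 1 := le_antisymm (h1 b) hb
      rw [ha', hb'] at hab
      simp at hab
  have hne : I ≠ ⊥ := by
    obtain ⟨s, hs, hs1⟩ := h2
    intro h
    have : s ∈ I := hs1
    rw [h] at this
    exact hs (by simpa using this)
  let P : HeightOneSpectrum S := ⟨I, hprime, hne⟩
  refine ⟨P, Place.ext' ?_⟩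
  show P.valuation K = v.val
  have hle : ∀ x : K, P.valuation K x ≤ 1 → v.val x ≤ 1 := by
    intro x hx
    obtain ⟨n, d, hd⟩ := HeightOneSpectrum.exists_primeCompl_mul_eq_of_integer P x hx
    have hd1 : v.val (algebraMap S K (d : S)) = 1 := by
      have : (d : S) ∉ I := d.2
      rw [hI, not_lt] at this
      exact le_antisymm (h1 _) this
    have := congrArg v.val hd
    rw [map_mul, hd1, mul_one] at this
    rw [this]
    exact h1 n
  have hone : ∀ x : K, P.valuation K x = 1 → v.val x = 1 := by
    intro x hx
    have hx0 : x ≠ 0 := by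
      rintro rfl
      simp at hx
    apply le_antisymm (hle x hx.le)
    have h3 : P.valuation K x⁻¹ ≤ 1 := by rw [map_inv₀, hx, inv_one]
    have h4 := hle _ h3
    rw [map_inv₀] at h4
    have h5 : v.val x ≠ 0 := (Valuation.ne_zero_iff _).2 hx0
    exact (inv_le_one₀ (zero_lt_iff.2 h5)).1 h4
  obtain ⟨π, hπ⟩ := HeightOneSpectrum.valuation_exists_uniformizer K P
  have hπ0 : π ≠ 0 := by
    rintro rfl
    rw [map_zero] at hπ
    exact exp_ne_zero hπ.symm
  have key : ∀ x : K, x ≠ 0 → v.val x = v.val π ^ (- log (P.valuation K x)) := by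
    intro x hx
    have hPx : P.valuation K x ≠ 0 := (Valuation.ne_zero_iff _).2 hx
    have h6 : P.valuation K (x * π ^ (log (P.valuation K x))) = 1 := by
      rw [map_mul, map_zpow₀, hπ, ← exp_zsmul]
      conv_lhs => rw [← exp_log hPx]
      rw [← exp_add]
      simp
    have h7 := hone _ h6
    rw [map_mul, map_zpow₀] at h7
    rw [zpow_neg]
    exact eq_inv_of_mul_eq_one_left h7
  have hπ1 : v.val π = exp (-1 : ℤ) := by
    have hvπ : v.val π ≠ 0 := (Valuation.ne_zero_iff _).2 hπ0
    obtain ⟨y, hy⟩ := v.surj (exp (-1 : ℤ))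
    have hy0 : y ≠ 0 := by
      rintro rfl
      rw [map_zero] at hy
      exact exp_ne_zero hy.symm
    have h8 := key y hy0
    rw [hy] at h8
    have h9 : v.val π ≤ 1 := hle π (by rw [hπ]; exact exp_le_exp.2 (by norm_num))
    have h10 : v.val π = exp (log (v.val π)) := (exp_log hvπ).symm
    rw [h10, ← exp_zsmul, exp_inj, smul_eq_mul] at h8
    have h11 : log (v.val π) ≤ 0 := by
      rw [h10, ← exp_zero, exp_le_exp] at h9
      exact h9
    rw [h10, exp_inj]
    have h12 : log (v.val π) ∣ 1 := ⟨(log (P.valuation K y)), by linarith⟩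
    rcases Int.isUnit_iff.1 (isUnit_of_dvd_one h12) with h | h
    · omega
    · exact h
  ext x
  by_cases hx : x = 0
  · simp [hx]
  · rw [key x hx, hπ1, ← exp_zsmul]
    have hPx : P.valuation K x ≠ 0 := (Valuation.ne_zero_iff _).2 hx
    simp [exp_log hPx]

end Dedekind

end Pool.Agent.H957R2
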