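import Pool.Agent.H306R2.RG.Defs
import Pool.Agent.H306R2.RG.StubsA
import Pool.Agent.H509R2.RZ_P1

/-!
Project RG (helper306), tasks PG4, PG1, PG8: Poisson summation for the families.
-/

set_option autoImplicit false

namespace Pool.Agent.H957R2.RGPG

open Finset Filter Topology MeasureTheory Pool.Agent.H306R2.RZ Pool.Agent.H306R2.RG
open Pool.Agent.H306R2.RG.StubsA (bb8 bb4 bb1 bb2 FF1)
open Pool.Agent.H509R2.RZP1
open scoped FourierTransform

noncomputable section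

/-- Poisson summation in one residue class -/
theorem poisson0 {F : ℝ → ℝ} (hF : TF F) {c : ℝ} (hc : 0 < c) (y : ℝ) :
    ∑' t : ℤ, F (c * (y + t)) =
      (1 / c) * ∑' k : ℤ,
        (Real.cos (2 * Real.pi * k * y) * Cf F ((k : ℝ) / c) +
          Real.sin (2 * Real.pi * k * y) * Sf F ((k : ℝ) / c)) := by
  have h : ∑' n : ℤ, (fS hF hc) (y + n) = ∑' n : ℤ, 𝓕 (fS hF hc : ℝ → ℂ) (n : ℝ) *
      fourier n ((y : ℝ) : UnitAddCircle) :=
    SchwartzMap.tsum_eq_tsum_fourier (fS hF hc) y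
  have hterm : ∀ k : ℤ, (𝓕 (fS hF hc : ℝ → ℂ) (k : ℝ) *
      fourier k ((y : ℝ) : UnitAddCircle)).re =
      (1 / c) * ((Real.cos (2 * Real.pi * k * y) * Cf F ((k : ℝ) / c) +
          Real.sin (2 * Real.pi * k * y) * Sf F ((k : ℝ) / c))) := by
    intro k
    rw [fourier_fS, fourier_coe_apply]
    have e1 : (2 * Real.pi * Complex.I * (k : ℂ) * ((y : ℝ) : ℂ) / ((1 : ℝ) : ℂ)) =
        ((2 * Real.pi * k * y : ℝ) : ℂ) * Complex.I := by
      push_cast
      ring
    rw [e1, Complex.exp_mul_I, ← Complex.ofReal_cos, ← Complex.ofReal_sin]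
    simp only [Complex.mul_re, Complex.add_re, Complex.sub_re, Complex.ofReal_re, Complex.ofReal_im,
      Complex.I_re, Complex.I_im, Complex.mul_im, Complex.add_im, Complex.sub_im]
    ring
  have hsum : Summable (fun k : ℤ => 𝓕 (fS hF hc : ℝ → ℂ) (k : ℝ) *
      fourier k ((y : ℝ) : UnitAddCircle)) := by
    refine Summable.of_norm_bounded (summable_fourier hF hc) (fun k => ?_)
    rw [norm_mul]
    have : ‖fourier k ((y : ℝ) : UnitAddCircle)‖ = 1 := by
      rw [fourier_apply]; exact Circle.norm_coe _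
    rw [this, mul_one]
  have h1 : (∑' t : ℤ, (fS hF hc) (y + t)) =
      ((∑' t : ℤ, F (c * (y + t)) : ℝ) : ℂ) := by
    rw [Complex.ofReal_tsum]
    rfl
  rw [h1] at h
  have h2 := congrArg Complex.re h
  rw [Complex.ofReal_re] at h2
  rw [h2, Complex.re_tsum hsum, ← tsum_mul_left]
  exact tsum_congr hterm

theorem fin_supp0 {F : ℝ → ℝ} (hF : TF F) {X : ℝ} (hX : 0 < X) (g : ℤ → ℝ) :
    Summable (fun m : ℤ => F ((m : ℝ) / X) * g m) := by
  obtain ⟨R, hR⟩ := hF.cpt.isCompact.isBounded.subset_closedBall (0 : ℝ)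
  have h0 : ∀ x : ℝ, R < |x| → F x = 0 := by
    intro x hx
    by_contra hne
    have := hR (subset_tsupport F hne)
    rw [mem_closedBall_zero_iff, Real.norm_eq_abs] at this
    linarith
  refine summable_of_hasFiniteSupport ?_
  refine (Set.finite_Icc (-(⌈R * X⌉)) (⌈R * X⌉)).subset ?_
  intro m hm
  have h1 : F ((m : ℝ) / X) ≠ 0 := fun h => hm (by show F _ * _ = 0; rw [h, zero_mul])
  have h2 : |(m : ℝ) / X| ≤ R := by
    by_contra hc
    exact h1 (h0 _ (not_le.1 hc))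
  rw [abs_div, abs_of_pos hX, div_le_iff₀ hX] at h2
  have h3 : |(m : ℝ)| ≤ (⌈R * X⌉ : ℝ) := h2.trans (Int.le_ceil _)
  have h4 : |m| ≤ ⌈R * X⌉ := by exact_mod_cast h3
  rw [abs_le] at h4
  rw [Set.mem_Icc]
  constructor <;> omega

theorem to_int {F : ℝ → ℝ} (hF : TF F) {X : ℝ} (hX : 0 < X) (g : ℤ → ℝ) :
    ∑' d : ℕ, F ((d : ℝ) / X) * g d = ∑' d : ℤ, F ((d : ℝ) / X) * g d := by
  rw [← (Nat.cast_injective (R := ℤ)).tsum_eq]
  · refine tsum_congr fun d => ?_
    simp only [Int.cast_natCast]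
  · intro d hd
    by_contra hcon
    apply hd
    have hneg : d < 0 := by
      by_contra h
      exact hcon ⟨d.toNat, by simp [not_lt.1 h]⟩
    have : F ((d : ℝ) / X) = 0 := by
      by_contra hne
      have h1 : (d : ℝ) / X ∈ Set.Ioi (0 : ℝ) := hF.pos (subset_tsupport F hne)
      have h2 : (d : ℝ) < 0 := by exact_mod_cast hneg
      have h3 := div_neg_of_neg_of_pos h2 hX
      exact absurd h1 (not_lt.2 h3.le)
    show F ((d : ℝ) / X) * g d = 0
    rw [this, zero_mul]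

/-- splitting into residue classes mod `N` -/
theorem split0 {F : ℝ → ℝ} (hF : TF F) {X : ℝ} (hX : 0 < X) {N : ℕ} (hN : N ≠ 0) (g : ℤ → ℝ)
    (hg : ∀ m t : ℤ, g (m + N * t) = g m) :
    ∑' d : ℤ, F ((d : ℝ) / X) * g d =
      ∑ r ∈ range N, g r * ∑' t : ℤ, F (N / X * ((r : ℝ) / N + t)) := by
  have : NeZero N := ⟨hN⟩
  have hNR : (N : ℝ) ≠ 0 := by exact_mod_cast hN
  set h : ℤ → ℝ := fun m => F ((m : ℝ) / X) * g m with hh
  have hsum : Summable h := fin_supp0 hF hX _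
  have e3 : ∑' m : ℤ, h m = ∑' p : Fin N × ℤ, h (p.2 * N + (p.1 : ℕ)) := by
    rw [← (Int.divModEquiv N).symm.tsum_eq h, ← (Equiv.prodComm (Fin N) ℤ).tsum_eq]
    rfl
  have hsum2 : Summable (fun p : Fin N × ℤ => h (p.2 * N + (p.1 : ℕ))) := by
    have h1 : Summable (fun q : ℤ × Fin N => h ((Int.divModEquiv N).symm q)) :=
      (Int.divModEquiv N).symm.summable_iff.2 hsum
    exact (Equiv.prodComm (Fin N) ℤ).summable_iff.2 h1
  rw [e3, hsum2.tsum_prod, tsum_fintype,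
    ← Fin.sum_univ_eq_sum_range (fun r => g (r : ℤ) * ∑' t : ℤ, F (N / X * ((r : ℝ) / N + t)))]
  refine Finset.sum_congr rfl fun r _ => ?_
  rw [← tsum_mul_left]
  refine tsum_congr fun t => ?_
  show F ((t * N + (r : ℕ) : ℤ) / X) * g (t * N + (r : ℕ)) = _
  rw [show (t * N + ((r : ℕ) : ℤ)) = ((r : ℕ) : ℤ) + N * t by ring, hg, mul_comm]
  congr 2
  push_cast
  field_simp

/-- general Poisson summation with an `N`-periodic weight -/
theorem poissonN {F : ℝ → ℝ} (hF : TF F) {X : ℝ} (hX : 0 < X) {N : ℕ} (hN : N ≠ 0) (g : ℤ → ℝ)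
    (hg : ∀ m t : ℤ, g (m + N * t) = g m) :
    Summable (fun k : ℤ => (∑ b ∈ range N, g b * cas (2 * Real.pi * k * ((b : ℝ) / N))) *
      Ft F (k * X / N)) ∧
    ∑' d : ℕ, F ((d : ℝ) / X) * g d = X / N *
      ∑' k : ℤ, (∑ b ∈ range N, g b * cas (2 * Real.pi * k * ((b : ℝ) / N))) *
        Ft F (k * X / N) := by
  have hnR : (0 : ℝ) < N := by exact_mod_cast Nat.pos_of_ne_zero hN
  have hc : 0 < (N : ℝ) / X := by positivity
  set c : ℝ := (N : ℝ) / X with hcdef
  have hxi : ∀ k : ℤ, (k : ℝ) * X / N = (k : ℝ) / c := by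
    intro k
    rw [hcdef]
    field_simp
  set a : ℤ → ℝ := fun k => Cf F ((k : ℝ) / c) with ha
  set b : ℤ → ℝ := fun k => Sf F ((k : ℝ) / c) with hb
  have hSa : Summable (fun k => |a k|) := summable_Cf hF hc
  have hSb : Summable (fun k => |b k|) := summable_Sf hF hc
  set be : ℤ → ℕ → ℝ := fun k r => 2 * Real.pi * k * ((r : ℝ) / N) with hbe
  set A : ℤ → ℝ := fun k =>
    ∑ r ∈ range N, g (r : ℤ) * (Real.cos (be k r) * a k + Real.sin (be k r) * b k) with hA
  set B : ℤ → ℝ := fun k =>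
    ∑ r ∈ range N, g (r : ℤ) * (Real.cos (be k r) * b k + Real.sin (be k r) * a k) with hB
  have hterm : ∀ k : ℤ, (∑ b ∈ range N, g b * cas (2 * Real.pi * k * ((b : ℝ) / N))) *
      Ft F (k * X / N) = A k + B k := by
    intro k
    rw [hxi, Ft_eq hF, hA, hB]
    simp only []
    rw [← Finset.sum_add_distrib, Finset.sum_mul]
    refine Finset.sum_congr rfl fun r _ => ?_
    rw [cas]
    ring
  have hbound : ∀ (x y : ℤ → ℝ), Summable (fun k => |x k|) → Summable (fun k => |y k|) →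
      Summable (fun k : ℤ =>
        ∑ r ∈ range N, g (r : ℤ) * (Real.cos (be k r) * x k + Real.sin (be k r) * y k)) := by
    intro x y hx hy
    refine Summable.of_norm_bounded (g := fun k => ∑ r ∈ range N, |g (r : ℤ)| * (|x k| + |y k|))
      ?_ (fun k => ?_)
    · refine summable_sum fun r _ => ?_
      exact (hx.add hy).mul_left _
    · refine (norm_sum_le _ _).trans (Finset.sum_le_sum fun r _ => ?_)
      rw [norm_mul, Real.norm_eq_abs]
      refine mul_le_mul_of_nonneg_left ?_ (abs_nonneg _)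
      refine (norm_add_le _ _).trans (add_le_add ?_ ?_)
      · rw [norm_mul, Real.norm_eq_abs, Real.norm_eq_abs]
        exact mul_le_of_le_one_left (abs_nonneg _) (Real.abs_cos_le_one _)
      · rw [norm_mul, Real.norm_eq_abs, Real.norm_eq_abs]
        exact mul_le_of_le_one_left (abs_nonneg _) (Real.abs_sin_le_one _)
  have hSA : Summable A := hbound a b hSa hSb
  have hSB : Summable B := hbound b a hSb hSa
  have hBodd : ∀ k, B (-k) = -B k := by
    intro k
    have h1 : a (-k) = a k := by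
      show Cf F (((-k : ℤ) : ℝ) / c) = Cf F ((k : ℝ) / c)
      rw [Int.cast_neg, neg_div, Cf_neg]
    have h2 : b (-k) = -b k := by
      show Sf F (((-k : ℤ) : ℝ) / c) = -Sf F ((k : ℝ) / c)
      rw [Int.cast_neg, neg_div, Sf_neg]
    have h3 : ∀ r, be (-k) r = -be k r := by
      intro r
      show 2 * Real.pi * ((-k : ℤ) : ℝ) * ((r : ℝ) / N) = -(2 * Real.pi * (k : ℝ) * ((r : ℝ) / N))
      rw [Int.cast_neg]
      ring
    show ∑ r ∈ range N, g (r : ℤ) *
      (Real.cos (be (-k) r) * b (-k) + Real.sin (be (-k) r) * a (-k)) = -(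
      ∑ r ∈ range N, g (r : ℤ) * (Real.cos (be k r) * b k + Real.sin (be k r) * a k))
    rw [← Finset.sum_neg_distrib]
    refine Finset.sum_congr rfl fun r _ => ?_
    rw [h1, h2, h3, Real.cos_neg, Real.sin_neg]
    ring
  have hB0 : ∑' k, B k = 0 := by
    have h1 : ∑' k, B k = ∑' k, B (-k) := ((Equiv.neg ℤ).tsum_eq B).symm
    have h2 : ∑' k, B (-k) = -∑' k, B k := by
      rw [← tsum_neg]
      exact tsum_congr hBodd
    linarith
  refine ⟨?_, ?_⟩
  · rw [funext hterm]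
    exact hSA.add hSB
  · rw [tsum_congr hterm, hSA.tsum_add hSB, hB0, add_zero, to_int hF hX, split0 hF hX hN g hg]
    have e1 : ∀ r ∈ range N, g (r : ℤ) * ∑' t : ℤ, F (N / X * ((r : ℝ) / N + t)) =
        (1 / c) * ∑' k : ℤ,
          (g (r : ℤ) * (Real.cos (be k r) * a k + Real.sin (be k r) * b k)) := by
      intro r _
      rw [← hcdef, poisson0 hF hc, ← mul_assoc, mul_comm (g (r : ℤ)), mul_assoc, ← tsum_mul_left]
    rw [Finset.sum_congr rfl e1, ← Finset.mul_sum]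
    have hS1 : ∀ r ∈ range N, Summable (fun k : ℤ =>
          (g (r : ℤ) * (Real.cos (be k r) * a k + Real.sin (be k r) * b k))) := by
      intro r _
      refine Summable.of_norm_bounded (g := fun k => |g (r : ℤ)| * (|a k| + |b k|))
        ((hSa.add hSb).mul_left _) (fun k => ?_)
      rw [norm_mul, Real.norm_eq_abs]
      refine mul_le_mul_of_nonneg_left ?_ (abs_nonneg _)
      refine (norm_add_le _ _).trans (add_le_add ?_ ?_)
      · rw [norm_mul, Real.norm_eq_abs, Real.norm_eq_abs]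
        exact mul_le_of_le_one_left (abs_nonneg _) (Real.abs_cos_le_one _)
      · rw [norm_mul, Real.norm_eq_abs, Real.norm_eq_abs]
        exact mul_le_of_le_one_left (abs_nonneg _) (Real.abs_sin_le_one _)
    rw [← Summable.tsum_finsetSum hS1, hcdef]
    have e5 : (1 : ℝ) / (N / X) = X / N := by field_simp
    rw [e5]

/-- the sum over residues mod `8 n` -/
theorem crt_sum {n : ℕ} (hn : Odd n) (f : ℤ → ℝ) (hf : ∀ m t : ℤ, f (m + (8 * n : ℕ) * t) = f m) :
    ∑ b ∈ range (8 * n), f b = ∑ b ∈ range 8, ∑ r ∈ range n, f (n * b + 8 * r) := by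
  have hn0 : 0 < n := hn.pos
  have hper : ∀ m : ℤ, f (m % (8 * n : ℕ)) = f m := by
    intro m
    conv_rhs => rw [← Int.emod_add_mul_ediv m (8 * n : ℕ)]
    rw [hf]
  rw [← Finset.sum_product']
  symm
  have hcop : Nat.Coprime 8 n := by
    have h2 : Nat.Coprime 2 n := (Nat.coprime_two_left).2 hn
    have h4 : Nat.Coprime (2 ^ 3) n := h2.pow_left 3
    simpa using h4
  have hmaps : Set.MapsTo (fun p : ℕ × ℕ => (n * p.1 + 8 * p.2) % (8 * n))
      (range 8 ×ˢ range n : Finset (ℕ × ℕ)) (range (8 * n) : Finset ℕ) := by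
    intro p hp
    rw [Finset.mem_coe, mem_range]
    exact Nat.mod_lt _ (by positivity)
  have hinj : Set.InjOn (fun p : ℕ × ℕ => (n * p.1 + 8 * p.2) % (8 * n))
      (range 8 ×ˢ range n : Finset (ℕ × ℕ)) := by
    intro p hp q hq hpq
    simp only [coe_product, coe_range, Set.mem_prod, Set.mem_Iio] at hp hq
    have hpq' : n * p.1 + 8 * p.2 ≡ n * q.1 + 8 * q.2 [MOD 8 * n] := hpq
    have h8 : n * p.1 + 8 * p.2 ≡ n * q.1 + 8 * q.2 [MOD 8] := hpq'.of_mul_right n
    have hn' : n * p.1 + 8 * p.2 ≡ n * q.1 + 8 * q.2 [MOD n] := hpq'.of_mul_left 8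
    have a1 : n * p.1 ≡ n * q.1 [MOD 8] := by
      have u1 : 8 * p.2 ≡ 8 * q.2 [MOD 8] := by simp [Nat.ModEq]
      exact Nat.ModEq.add_right_cancel u1 h8
    have a2 : 8 * p.2 ≡ 8 * q.2 [MOD n] := by
      have u1 : n * p.1 ≡ n * q.1 [MOD n] := by simp [Nat.ModEq]
      exact Nat.ModEq.add_left_cancel u1 hn'
    have b1 : p.1 ≡ q.1 [MOD 8] := Nat.ModEq.cancel_left_of_coprime hcop a1
    have b2 : p.2 ≡ q.2 [MOD n] := Nat.ModEq.cancel_left_of_coprime hcop.symm a2
    have c1 : p.1 = q.1 := by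
      have := b1
      rw [Nat.ModEq, Nat.mod_eq_of_lt hp.1, Nat.mod_eq_of_lt hq.1] at this
      exact this
    have c2 : p.2 = q.2 := by
      have := b2
      rw [Nat.ModEq, Nat.mod_eq_of_lt hp.2, Nat.mod_eq_of_lt hq.2] at this
      exact this
    exact Prod.ext c1 c2
  refine Finset.sum_nbij (fun p : ℕ × ℕ => (n * p.1 + 8 * p.2) % (8 * n)) hmaps hinj ?_ ?_
  · exact Finset.surjOn_of_injOn_of_card_le _ hmaps hinj (by simp)
  · intro p hp
    have := hper ((n * p.1 + 8 * p.2 : ℕ) : ℤ)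
    show f (n * (p.1 : ℤ) + 8 * (p.2 : ℤ)) = f (((n * p.1 + 8 * p.2) % (8 * n) : ℕ) : ℤ)
    rw [Int.natCast_mod, this]
    push_cast
    rfl

/-! ### Gauss sums -/

theorem jj_cop {n : ℕ} (hn : Odd n) : Int.gcd 2 n = 1 := by
  have h2 : Nat.Coprime 2 n := (Nat.coprime_two_left).2 hn
  simpa [Int.gcd] using h2

theorem js_mul (a b : ℤ) (n : ℕ) : js (a * b) n = js a n * js b n := by
  unfold js
  rw [jacobiSym.mul_left]
  push_cast
  rfl

theorem js_add (r t : ℤ) (n : ℕ) : js (r + n * t) n = js r n := js_add_mul r t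

theorem js2_sq {n : ℕ} (hn : Odd n) : js 2 n * js 2 n = 1 := by
  have h := jacobiSym.sq_one (a := 2) (b := n) (jj_cop hn)
  unfold js
  rw [← Int.cast_mul, ← pow_two, h, Int.cast_one]

theorem jsn1_sq (n : ℕ) : js (-1) n * js (-1) n = 1 := by
  have h := jacobiSym.sq_one (a := -1) (b := n) (by simp [Int.gcd])
  unfold js
  rw [← Int.cast_mul, ← pow_two, h, Int.cast_one]

theorem cas_add_int (t : ℝ) (m : ℤ) : cas (t + m * (2 * Real.pi)) = cas t := by
  unfold cas
  rw [Real.cos_add_int_mul_two_pi, Real.sin_add_int_mul_two_pi]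

theorem sum_emod {n : ℕ} (hn : n ≠ 0) (f : ℤ → ℝ) (hf : ∀ m t : ℤ, f (m + n * t) = f m)
    (u : ℤ) (hu : Int.gcd u n = 1) :
    ∑ r ∈ range n, f (u * r) = ∑ r ∈ range n, f r := by
  have hper : ∀ m : ℤ, f (m % (n : ℤ)) = f m := by
    intro m
    conv_rhs => rw [← Int.emod_add_mul_ediv m (n : ℤ)]
    rw [hf]
  have hpos : (0 : ℤ) < n := by exact_mod_cast Nat.pos_of_ne_zero hn
  have hmaps : Set.MapsTo (fun r : ℕ => ((u * r) % (n : ℤ)).toNat)
      (range n : Finset ℕ) (range n : Finset ℕ) := by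
    intro r hr
    rw [Finset.mem_coe, mem_range]
    have h1 := Int.emod_nonneg (u * r) hpos.ne'
    have h2 := Int.emod_lt_of_pos (u * r) hpos
    show ((u * r) % (n : ℤ)).toNat < n
    omega
  have hinj : Set.InjOn (fun r : ℕ => ((u * r) % (n : ℤ)).toNat) (range n : Finset ℕ) := by
    intro r hr q hq hrq
    simp only [coe_range, Set.mem_Iio] at hr hq
    have h1 := Int.emod_nonneg (u * r) hpos.ne'
    have h2 := Int.emod_nonneg (u * q) hpos.ne'
    have h3 : (u * r) % (n : ℤ) = (u * q) % (n : ℤ) := by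
      have : ((u * r) % (n : ℤ)).toNat = ((u * q) % (n : ℤ)).toNat := hrq
      omega
    have h4 : (n : ℤ) ∣ u * (r - q) := by
      have := Int.emod_emod_of_dvd
      rw [mul_sub]
      exact Int.ModEq.dvd (Int.ModEq.symm h3)
    have h5 : (n : ℤ) ∣ ((r : ℤ) - q) :=
      IsCoprime.dvd_of_dvd_mul_left ((Int.isCoprime_iff_gcd_eq_one.2 hu).symm) h4
    have h6 : |(r : ℤ) - q| < n := by
      rw [abs_lt]; constructor <;> omega
    have h7 := Int.eq_zero_of_abs_lt_dvd h5 h6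
    omega
  symm
  symm
  refine Finset.sum_nbij (fun r : ℕ => ((u * r) % (n : ℤ)).toNat) hmaps hinj ?_ ?_
  · exact Finset.surjOn_of_injOn_of_card_le _ hmaps hinj le_rfl
  · intro r hr
    have h1 := Int.emod_nonneg (u * r) hpos.ne'
    show f (u * r) = f ((((u * r) % (n : ℤ)).toNat : ℕ) : ℤ)
    rw [Int.toNat_of_nonneg h1, hper]

theorem Gk_mul {n : ℕ} (hn : n ≠ 0) (u k : ℤ) (hu : Int.gcd u n = 1) :
    Gk (u * k) n = js u n * Gk k n := by
  have hnR : (n : ℝ) ≠ 0 := by exact_mod_cast hn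
  have hsq : js u n * js u n = 1 := by
    have h := jacobiSym.sq_one (a := u) (b := n) hu
    unfold js
    rw [← Int.cast_mul, ← pow_two, h, Int.cast_one]
  have h := sum_emod hn (fun m : ℤ => js m n * cas (2 * Real.pi * k * ((m : ℝ) / n))) (by
    intro m t
    show js (m + n * t) n * cas (2 * Real.pi * k * (((m + n * t : ℤ) : ℝ) / n)) = _
    rw [js_add]
    congr 1
    have : 2 * Real.pi * k * (((m + n * t : ℤ) : ℝ) / n) =
        2 * Real.pi * k * ((m : ℝ) / n) + ((k * t : ℤ) : ℝ) * (2 * Real.pi) := by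
      push_cast
      field_simp
    rw [this, cas_add_int]) u hu
  have e1 : Gk (u * k) n = js u n * ∑ r ∈ range n, js (u * r) n *
      cas (2 * Real.pi * k * (((u * r : ℤ) : ℝ) / n)) := by
    rw [Gk, Finset.mul_sum]
    refine Finset.sum_congr rfl fun r _ => ?_
    rw [js_mul, ← mul_assoc, ← mul_assoc, hsq, one_mul]
    congr 2
    push_cast
    ring
  rw [e1]
  have e2 : ∑ r ∈ range n, js (u * r) n * cas (2 * Real.pi * k * (((u * r : ℤ) : ℝ) / n)) =
      Gk k n := by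
    refine h.trans ?_
    rw [Gk]
    refine Finset.sum_congr rfl fun r _ => ?_
    congr 2
    push_cast
    ring
  rw [e2]

theorem gcd_neg_one (n : ℕ) : Int.gcd (-1) n = 1 := by simp [Int.gcd]

/-- the Fourier coefficients of `psi(d) (u d | n)` modulo `8 n` -/
theorem coef {n : ℕ} (hn : Odd n) (u : ℤ) (ψ : ℤ → ℝ) (hψ : ∀ m t : ℤ, ψ (m + 8 * t) = ψ m)
    (k : ℤ) :
    ∑ b ∈ range (8 * n), (ψ b * js (u * b) n) * cas (2 * Real.pi * k * ((b : ℝ) / ((8 * n : ℕ) : ℝ))) =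
      js u n * js 2 n * (∑ b ∈ range 8, ψ (n * b) * (Real.cos (Real.pi * ((k * b : ℤ) : ℝ) / 4) +
        js (-1) n * Real.sin (Real.pi * ((k * b : ℤ) : ℝ) / 4))) * Gk k n := by
  have hn0 : n ≠ 0 := by rintro rfl; exact absurd hn (by decide)
  have hnR : (n : ℝ) ≠ 0 := by exact_mod_cast hn0
  have hcrt := crt_sum hn (fun b : ℤ => (ψ b * js (u * b) n) *
    cas (2 * Real.pi * k * ((b : ℝ) / ((8 * n : ℕ) : ℝ)))) (by
    intro m t
    show (ψ (m + (8 * n : ℕ) * t) * js (u * (m + (8 * n : ℕ) * t)) n) *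
      cas (2 * Real.pi * k * (((m + (8 * n : ℕ) * t : ℤ) : ℝ) / ((8 * n : ℕ) : ℝ))) = _
    have a1 : ψ (m + (8 * n : ℕ) * t) = ψ m := by
      rw [show m + ((8 * n : ℕ) : ℤ) * t = m + 8 * (n * t) by push_cast; ring, hψ]
    have a2 : js (u * (m + (8 * n : ℕ) * t)) n = js (u * m) n := by
      rw [show u * (m + ((8 * n : ℕ) : ℤ) * t) = u * m + n * (8 * u * t) by push_cast; ring, js_add]
    rw [a1, a2]
    congr 1
    have : 2 * Real.pi * k * (((m + (8 * n : ℕ) * t : ℤ) : ℝ) / ((8 * n : ℕ) : ℝ)) =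
        2 * Real.pi * k * ((m : ℝ) / ((8 * n : ℕ) : ℝ)) + ((k * t : ℤ) : ℝ) * (2 * Real.pi) := by
      push_cast
      field_simp
    rw [this, cas_add_int])
  have e0 : ∑ b ∈ range (8 * n), (ψ b * js (u * b) n) *
      cas (2 * Real.pi * k * ((b : ℝ) / ((8 * n : ℕ) : ℝ))) =
      ∑ b ∈ range (8 * n), (fun b : ℤ => (ψ b * js (u * b) n) *
    cas (2 * Real.pi * k * ((b : ℝ) / ((8 * n : ℕ) : ℝ)))) (b : ℤ) := by
    refine Finset.sum_congr rfl fun b _ => ?_
    simp only [Int.cast_natCast]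
  rw [e0, hcrt]
  have hG : Gk (-k) n = js (-1) n * Gk k n := by
    have := Gk_mul hn0 (-1) k (gcd_neg_one n)
    rwa [neg_one_mul] at this
  have hin : ∀ b : ℕ, ∑ r ∈ range n, (fun b : ℤ => (ψ b * js (u * b) n) *
      cas (2 * Real.pi * k * ((b : ℝ) / ((8 * n : ℕ) : ℝ)))) (n * b + 8 * r) =
      js u n * js 2 n * (ψ (n * b) * (Real.cos (Real.pi * ((k * b : ℤ) : ℝ) / 4) +
        js (-1) n * Real.sin (Real.pi * ((k * b : ℤ) : ℝ) / 4))) * Gk k n := by
    intro b
    have hs : ∀ r : ℕ, (fun b : ℤ => (ψ b * js (u * b) n) *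
      cas (2 * Real.pi * k * ((b : ℝ) / ((8 * n : ℕ) : ℝ)))) (n * b + 8 * r) =
        js u n * js 2 n * ψ (n * b) * (js r n * (Real.cos (Real.pi * ((k * b : ℤ) : ℝ) / 4) *
          cas (2 * Real.pi * k * r / n) + Real.sin (Real.pi * ((k * b : ℤ) : ℝ) / 4) *
          cas (2 * Real.pi * ((-k : ℤ) : ℝ) * r / n))) := by
      intro r
      show (ψ (n * b + 8 * r) * js (u * (n * b + 8 * r)) n) *
        cas (2 * Real.pi * k * (((n * b + 8 * r : ℤ) : ℝ) / ((8 * n : ℕ) : ℝ))) = _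
      have a1 : ψ (n * b + 8 * r) = ψ (n * b) := hψ _ _
      have a2 : js (u * (n * b + 8 * r)) n = js u n * js 2 n * js r n := by
        rw [show u * ((n : ℤ) * b + 8 * r) = u * (2 * (2 * (2 * r))) + n * (u * b) by ring, js_add,
          js_mul, js_mul, js_mul, js_mul]
        have := js2_sq hn
        linear_combination js u n * js 2 n * js r n * this
      rw [a1, a2]
      have a3 : 2 * Real.pi * k * (((n * b + 8 * r : ℤ) : ℝ) / ((8 * n : ℕ) : ℝ)) =
          Real.pi * ((k * b : ℤ) : ℝ) / 4 + 2 * Real.pi * k * r / n := by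
        push_cast
        field_simp
        ring
      rw [a3]
      have a4 : 2 * Real.pi * ((-k : ℤ) : ℝ) * r / n = -(2 * Real.pi * k * r / n) := by
        push_cast
        ring
      rw [a4]
      unfold cas
      rw [Real.cos_add, Real.sin_add, Real.cos_neg, Real.sin_neg]
      ring
    rw [Finset.sum_congr rfl fun r _ => hs r, ← Finset.mul_sum]
    have e3 : ∑ r ∈ range n, js r n * (Real.cos (Real.pi * ((k * b : ℤ) : ℝ) / 4) *
          cas (2 * Real.pi * k * r / n) + Real.sin (Real.pi * ((k * b : ℤ) : ℝ) / 4) *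
          cas (2 * Real.pi * ((-k : ℤ) : ℝ) * r / n)) =
        Real.cos (Real.pi * ((k * b : ℤ) : ℝ) / 4) * Gk k n +
          Real.sin (Real.pi * ((k * b : ℤ) : ℝ) / 4) * Gk (-k) n := by
      rw [Gk, Gk, Finset.mul_sum, Finset.mul_sum, ← Finset.sum_add_distrib]
      refine Finset.sum_congr rfl fun r _ => ?_
      ring
    rw [e3, hG]
    ring
  rw [Finset.sum_congr rfl fun b _ => hin b, ← Finset.sum_mul, ← Finset.mul_sum]

/-! ### tables -/

def ct (m : ℤ) : ℝ := if m = 0 then 1 else if m = 1 then Real.sqrt 2 / 2 else if m = 2 then 0 else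
  if m = 3 then -(Real.sqrt 2 / 2) else if m = 4 then -1 else if m = 5 then -(Real.sqrt 2 / 2) else
  if m = 6 then 0 else Real.sqrt 2 / 2

def st (m : ℤ) : ℝ := if m = 0 then 0 else if m = 1 then Real.sqrt 2 / 2 else if m = 2 then 1 else
  if m = 3 then Real.sqrt 2 / 2 else if m = 4 then 0 else if m = 5 then -(Real.sqrt 2 / 2) else
  if m = 6 then -1 else -(Real.sqrt 2 / 2)

theorem tab_aux (m : ℤ) : ∃ q i : ℤ, m = 8 * q + i ∧ m % 8 = i ∧
    (i = 0 ∨ i = 1 ∨ i = 2 ∨ i = 3 ∨ i = 4 ∨ i = 5 ∨ i = 6 ∨ i = 7) :=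
  ⟨m / 8, m % 8, by omega, rfl, by omega⟩

theorem cos_tab (m : ℤ) : Real.cos (Real.pi * (m : ℝ) / 4) = ct (m % 8) ∧
    Real.sin (Real.pi * (m : ℝ) / 4) = st (m % 8) := by
  obtain ⟨q, i, h1, h2, h3⟩ := tab_aux m
  rw [h2]
  have e : Real.pi * (m : ℝ) / 4 = Real.pi * (i : ℝ) / 4 + q * (2 * Real.pi) := by
    rw [h1]; push_cast; ring
  rw [e, Real.cos_add_int_mul_two_pi, Real.sin_add_int_mul_two_pi]
  have c4 := Real.cos_pi_div_four
  have s4 := Real.sin_pi_div_four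
  rcases h3 with h | h | h | h | h | h | h | h <;> subst h
  · norm_num [ct, st]
  · norm_num [ct, st]
  · have : Real.pi * ((2 : ℤ) : ℝ) / 4 = Real.pi / 2 := by push_cast; ring
    rw [this]; norm_num [ct, st]
  · have : Real.pi * ((3 : ℤ) : ℝ) / 4 = Real.pi - Real.pi / 4 := by push_cast; ring
    rw [this, Real.cos_pi_sub, Real.sin_pi_sub, c4, s4]; norm_num [ct, st]
  · have : Real.pi * ((4 : ℤ) : ℝ) / 4 = Real.pi := by push_cast; ring
    rw [this]; norm_num [ct, st]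
  · have : Real.pi * ((5 : ℤ) : ℝ) / 4 = Real.pi / 4 + Real.pi := by push_cast; ring
    rw [this, Real.cos_add_pi, Real.sin_add_pi, c4, s4]; norm_num [ct, st]
  · have : Real.pi * ((6 : ℤ) : ℝ) / 4 = Real.pi / 2 + Real.pi := by push_cast; ring
    rw [this, Real.cos_add_pi, Real.sin_add_pi]; norm_num [ct, st]
  · have : Real.pi * ((7 : ℤ) : ℝ) / 4 = 2 * Real.pi - Real.pi / 4 := by push_cast; ring
    rw [this, Real.cos_two_pi_sub, Real.sin_two_pi_sub, c4, s4]; norm_num [ct, st]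

theorem js_tab {n : ℕ} (hn : Odd n) :
    ((n : ℤ) % 8 = 1 ∧ js 2 n = 1 ∧ js (-1) n = 1) ∨ ((n : ℤ) % 8 = 3 ∧ js 2 n = -1 ∧ js (-1) n = -1) ∨
    ((n : ℤ) % 8 = 5 ∧ js 2 n = -1 ∧ js (-1) n = 1) ∨ ((n : ℤ) % 8 = 7 ∧ js 2 n = 1 ∧ js (-1) n = -1) := by
  have h2 : js 2 n = ((ZMod.χ₈ (n : ZMod 8) : ℤ) : ℝ) := by
    unfold js; rw [jacobiSym.at_two hn]
  have h1 : js (-1) n = ((ZMod.χ₄ (n : ZMod 4) : ℤ) : ℝ) := by
    unfold js; rw [jacobiSym.at_neg_one hn]
  have h8 : n % 8 = 1 ∨ n % 8 = 3 ∨ n % 8 = 5 ∨ n % 8 = 7 := by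
    obtain ⟨j, hj⟩ := hn
    omega
  rw [h1, h2]
  rcases h8 with h | h | h | h
  · left
    have a : (n : ZMod 8) = 1 := by
      have := (ZMod.natCast_eq_natCast_iff n 1 8).2 h; simpa using this
    have b : (n : ZMod 4) = 1 := by
      have := (ZMod.natCast_eq_natCast_iff n 1 4).2 (by show n % 4 = 1 % 4; omega); simpa using this
    refine ⟨by omega, ?_, ?_⟩
    · rw [a]; have : ZMod.χ₈ 1 = 1 := by decide
      rw [this]; norm_num
    · rw [b]; have : ZMod.χ₄ 1 = 1 := by decide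
      rw [this]; norm_num
  · right; left
    have a : (n : ZMod 8) = 3 := by
      have := (ZMod.natCast_eq_natCast_iff n 3 8).2 h; simpa using this
    have b : (n : ZMod 4) = 3 := by
      have := (ZMod.natCast_eq_natCast_iff n 3 4).2 (by show n % 4 = 3 % 4; omega); simpa using this
    refine ⟨by omega, ?_, ?_⟩
    · rw [a]; have : ZMod.χ₈ 3 = -1 := by decide
      rw [this]; norm_num
    · rw [b]; have : ZMod.χ₄ 3 = -1 := by decide
      rw [this]; norm_num
  · right; right; left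
    have a : (n : ZMod 8) = 5 := by
      have := (ZMod.natCast_eq_natCast_iff n 5 8).2 h; simpa using this
    have b : (n : ZMod 4) = 1 := by
      have := (ZMod.natCast_eq_natCast_iff n 1 4).2 (by show n % 4 = 1 % 4; omega); simpa using this
    refine ⟨by omega, ?_, ?_⟩
    · rw [a]; have : ZMod.χ₈ 5 = -1 := by decide
      rw [this]; norm_num
    · rw [b]; have : ZMod.χ₄ 1 = 1 := by decide
      rw [this]; norm_num
  · right; right; right
    have a : (n : ZMod 8) = 7 := by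
      have := (ZMod.natCast_eq_natCast_iff n 7 8).2 h; simpa using this
    have b : (n : ZMod 4) = 3 := by
      have := (ZMod.natCast_eq_natCast_iff n 3 4).2 (by show n % 4 = 3 % 4; omega); simpa using this
    refine ⟨by omega, ?_, ?_⟩
    · rw [a]; have : ZMod.χ₈ 7 = 1 := by decide
      rw [this]; norm_num
    · rw [b]; have : ZMod.χ₄ 3 = -1 := by decide
      rw [this]; norm_num

/-- the sum over residues mod 8 -/
def Ws (ψ : ℤ → ℝ) (n : ℕ) (k : ℤ) : ℝ :=
  ∑ b ∈ range 8, ψ (n * b) * (Real.cos (Real.pi * ((k * b : ℤ) : ℝ) / 4) +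
        js (-1) n * Real.sin (Real.pi * ((k * b : ℤ) : ℝ) / 4))

theorem Ws_eq (ψ : ℤ → ℝ) (hψ : ∀ m t : ℤ, ψ (m + 8 * t) = ψ m) (n : ℕ) (n0 i k : ℤ)
    (h0 : (n : ℤ) % 8 = n0) (hi : k % 8 = i) (j : ℝ) (hj : js (-1) n = j) :
    Ws ψ n k = ∑ b ∈ range 8, ψ ((n0 * b) % 8) * (ct ((i * b) % 8) + j * st ((i * b) % 8)) := by
  unfold Ws
  refine Finset.sum_congr rfl fun b _ => ?_
  rw [(cos_tab (k * b)).1, (cos_tab (k * b)).2, hj]
  have e1 : (k * (b : ℤ)) % 8 = (i * b) % 8 := by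
    rw [← hi, Int.mul_emod k b, Int.mul_emod (k % 8) b, Int.emod_emod_of_dvd k (dvd_refl 8)]
  have e2 : ψ (n * b) = ψ ((n0 * b) % 8) := by
    have e3 : ((n : ℤ) * (b : ℤ)) % 8 = (n0 * b) % 8 := by
      rw [← h0, Int.mul_emod (n : ℤ) b, Int.mul_emod ((n : ℤ) % 8) b,
        Int.emod_emod_of_dvd (n : ℤ) (dvd_refl 8)]
    rw [← e3]
    conv_lhs => rw [← Int.emod_add_mul_ediv (n * (b : ℤ)) 8]
    rw [hψ]
  rw [e1, e2]

def psi4 (ε : ℤ) (d : ℤ) : ℝ := if (ε * d) % 4 = 3 then 1 else 0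
def psi1 (ε c : ℤ) (d : ℤ) : ℝ := if (ε * d) % 8 = c then 1 else 0
def psi8 (d : ℤ) : ℝ := if d % 2 = 1 then 1 else 0

theorem psi4_per (ε : ℤ) (hε : ε = 1 ∨ ε = -1) (m t : ℤ) : psi4 ε (m + 8 * t) = psi4 ε m := by
  unfold psi4
  rcases hε with rfl | rfl
  · have : (1 * (m + 8 * t)) % 4 = (1 * m) % 4 := by omega
    rw [this]
  · have : (-1 * (m + 8 * t)) % 4 = (-1 * m) % 4 := by omega
    rw [this]

theorem psi1_per (ε c : ℤ) (hε : ε = 1 ∨ ε = -1) (m t : ℤ) : psi1 ε c (m + 8 * t) = psi1 ε c m := by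
  unfold psi1
  rcases hε with rfl | rfl
  · have : (1 * (m + 8 * t)) % 8 = (1 * m) % 8 := by omega
    rw [this]
  · have : (-1 * (m + 8 * t)) % 8 = (-1 * m) % 8 := by omega
    rw [this]

theorem psi8_per (m t : ℤ) : psi8 (m + 8 * t) = psi8 m := by
  unfold psi8
  have : (m + 8 * t) % 2 = m % 2 := by omega
  rw [this]

end

end Pool.Agent.H957R2.RGPG
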