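import Pool.Agent.H957R2.RG_PGa

/-!
Project RG (helper306), tasks PG4, PG1: tables.
-/

set_option autoImplicit false

namespace Pool.Agent.H957R2.RGPG

open Finset Filter Topology MeasureTheory Pool.Agent.H306R2.RZ Pool.Agent.H306R2.RG
open Pool.Agent.H306R2.RG.StubsA (bb8 bb4 bb1 bb2 FF1)
open Pool.Agent.H509R2.RZP1

noncomputable section

theorem Ws4_odd {n : ℕ} (hn : Odd n) (ε : ℤ) (hε : ε = 1 ∨ ε = -1) (k : ℤ) (hk : k % 2 = 1) :
    Ws (psi4 ε) n k = 0 := by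
  have hk8 : k % 8 = 1 ∨ k % 8 = 3 ∨ k % 8 = 5 ∨ k % 8 = 7 := by omega
  rcases js_tab hn with ⟨h0, -, hj⟩ | ⟨h0, -, hj⟩ | ⟨h0, -, hj⟩ | ⟨h0, -, hj⟩ <;>
  rcases hk8 with hi | hi | hi | hi <;>
  rw [Ws_eq _ (psi4_per ε hε) n _ _ k h0 hi _ hj] <;>
  rcases hε with rfl | rfl <;>
  simp only [Finset.sum_range_succ, Finset.sum_range_zero] <;> norm_num [psi4, ct, st] <;> ring

theorem bb4_tab (ε : ℤ) (hε : ε = 1 ∨ ε = -1) (k : ℤ) :
    (k % 4 = 0 ∧ (2 * k) % 8 = 0 ∧ bb4 (ε * k) = 1) ∨ (k % 4 = 1 ∧ (2 * k) % 8 = 2 ∧ bb4 (ε * k) = -ε) ∨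
    (k % 4 = 2 ∧ (2 * k) % 8 = 4 ∧ bb4 (ε * k) = -1) ∨ (k % 4 = 3 ∧ (2 * k) % 8 = 6 ∧ bb4 (ε * k) = ε) := by
  have h : k % 4 = 0 ∨ k % 4 = 1 ∨ k % 4 = 2 ∨ k % 4 = 3 := by omega
  rcases h with h | h | h | h
  · left; refine ⟨h, by omega, ?_⟩
    rcases hε with rfl | rfl
    · have : (1 * k) % 4 = 0 := by omega
      simp only [bb4, this]; norm_num
    · have : (-1 * k) % 4 = 0 := by omega
      simp only [bb4, this]; norm_num
  · right; left; refine ⟨h, by omega, ?_⟩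
    rcases hε with rfl | rfl
    · have : (1 * k) % 4 = 1 := by omega
      simp only [bb4, this]; norm_num
    · have : (-1 * k) % 4 = 3 := by omega
      simp only [bb4, this]; norm_num
  · right; right; left; refine ⟨h, by omega, ?_⟩
    rcases hε with rfl | rfl
    · have : (1 * k) % 4 = 2 := by omega
      simp only [bb4, this]; norm_num
    · have : (-1 * k) % 4 = 2 := by omega
      simp only [bb4, this]; norm_num
  · right; right; right; refine ⟨h, by omega, ?_⟩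
    rcases hε with rfl | rfl
    · have : (1 * k) % 4 = 3 := by omega
      simp only [bb4, this]; norm_num
    · have : (-1 * k) % 4 = 1 := by omega
      simp only [bb4, this]; norm_num

theorem bb1_tab (ε : ℤ) (hε : ε = 1 ∨ ε = -1) (k : ℤ) :
    (k % 4 = 0 ∧ (2 * k) % 8 = 0 ∧ bb1 (ε * k) = 1) ∨ (k % 4 = 1 ∧ (2 * k) % 8 = 2 ∧ bb1 (ε * k) = ε) ∨
    (k % 4 = 2 ∧ (2 * k) % 8 = 4 ∧ bb1 (ε * k) = -1) ∨ (k % 4 = 3 ∧ (2 * k) % 8 = 6 ∧ bb1 (ε * k) = -ε) := by
  have h : k % 4 = 0 ∨ k % 4 = 1 ∨ k % 4 = 2 ∨ k % 4 = 3 := by omega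
  rcases h with h | h | h | h
  · left; refine ⟨h, by omega, ?_⟩
    rcases hε with rfl | rfl
    · have : (1 * k) % 4 = 0 := by omega
      simp only [bb1, this]; norm_num
    · have : (-1 * k) % 4 = 0 := by omega
      simp only [bb1, this]; norm_num
  · right; left; refine ⟨h, by omega, ?_⟩
    rcases hε with rfl | rfl
    · have : (1 * k) % 4 = 1 := by omega
      simp only [bb1, this]; norm_num
    · have : (-1 * k) % 4 = 3 := by omega
      simp only [bb1, this]; norm_num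
  · right; right; left; refine ⟨h, by omega, ?_⟩
    rcases hε with rfl | rfl
    · have : (1 * k) % 4 = 2 := by omega
      simp only [bb1, this]; norm_num
    · have : (-1 * k) % 4 = 2 := by omega
      simp only [bb1, this]; norm_num
  · right; right; right; refine ⟨h, by omega, ?_⟩
    rcases hε with rfl | rfl
    · have : (1 * k) % 4 = 3 := by omega
      simp only [bb1, this]; norm_num
    · have : (-1 * k) % 4 = 1 := by omega
      simp only [bb1, this]; norm_num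

theorem bb2_tab (ε : ℤ) (hε : ε = 1 ∨ ε = -1) (k : ℤ) (hk : k % 2 = 1) :
    (k % 8 = 1 ∧ bb2 (ε * k) = (1 + ε) / 2) ∨ (k % 8 = 3 ∧ bb2 (ε * k) = (ε - 1) / 2) ∨
    (k % 8 = 5 ∧ bb2 (ε * k) = -(1 + ε) / 2) ∨ (k % 8 = 7 ∧ bb2 (ε * k) = (1 - ε) / 2) := by
  have h : k % 8 = 1 ∨ k % 8 = 3 ∨ k % 8 = 5 ∨ k % 8 = 7 := by omega
  rcases h with h | h | h | h
  · left; refine ⟨h, ?_⟩
    rcases hε with rfl | rfl
    · have : (1 * k) % 8 = 1 := by omega
      simp only [bb2, this]; norm_num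
    · have : (-1 * k) % 8 = 7 := by omega
      simp only [bb2, this]; norm_num
  · right; left; refine ⟨h, ?_⟩
    rcases hε with rfl | rfl
    · have : (1 * k) % 8 = 3 := by omega
      simp only [bb2, this]; norm_num
    · have : (-1 * k) % 8 = 5 := by omega
      simp only [bb2, this]; norm_num
  · right; right; left; refine ⟨h, ?_⟩
    rcases hε with rfl | rfl
    · have : (1 * k) % 8 = 5 := by omega
      simp only [bb2, this]; norm_num
    · have : (-1 * k) % 8 = 3 := by omega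
      simp only [bb2, this]; norm_num
  · right; right; right; refine ⟨h, ?_⟩
    rcases hε with rfl | rfl
    · have : (1 * k) % 8 = 7 := by omega
      simp only [bb2, this]; norm_num
    · have : (-1 * k) % 8 = 1 := by omega
      simp only [bb2, this]; norm_num

theorem bb2_even (k : ℤ) (hk : k % 2 = 0) : bb2 k = 0 := by
  unfold bb2
  rw [if_neg (by omega), if_neg (by omega)]

theorem Ws4_even {n : ℕ} (hn : Odd n) (ε : ℤ) (hε : ε = 1 ∨ ε = -1) (k : ℤ) :
    Ws (psi4 ε) n (2 * k) = 2 * bb4 (ε * k) := by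
  rcases js_tab hn with ⟨h0, -, hj⟩ | ⟨h0, -, hj⟩ | ⟨h0, -, hj⟩ | ⟨h0, -, hj⟩ <;>
  rcases bb4_tab ε hε k with ⟨-, hi, hb⟩ | ⟨-, hi, hb⟩ | ⟨-, hi, hb⟩ | ⟨-, hi, hb⟩ <;>
  rw [Ws_eq _ (psi4_per ε hε) n _ _ (2 * k) h0 hi _ hj, hb] <;>
  rcases hε with rfl | rfl <;>
  simp only [Finset.sum_range_succ, Finset.sum_range_zero] <;> norm_num [psi4, ct, st]

end

end Pool.Agent.H957R2.RGPG
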