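import Pool.Agent.H957R2.RG_PGb

/-!
Project RG (helper306), tasks PG4, PG1: tables.
-/

set_option autoImplicit false

namespace Pool.Agent.H957R2.RGPG

open Finset Filter Topology MeasureTheory Pool.Agent.H306R2.RZ Pool.Agent.H306R2.RG
open Pool.Agent.H306R2.RG.StubsA (bb8 bb4 bb1 bb2 FF1)
open Pool.Agent.H509R2.RZP1

noncomputable section

theorem Ws1_even {n : ℕ} (hn : Odd n) (ε c : ℤ) (hε : ε = 1 ∨ ε = -1) (hc : c = 1 ∨ c = 5) (k : ℤ) :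
    Ws (psi1 ε c) n (2 * k) = bb1 (ε * k) := by
  rcases js_tab hn with ⟨h0, -, hj⟩ | ⟨h0, -, hj⟩ | ⟨h0, -, hj⟩ | ⟨h0, -, hj⟩ <;>
  rcases bb1_tab ε hε k with ⟨-, hi, hb⟩ | ⟨-, hi, hb⟩ | ⟨-, hi, hb⟩ | ⟨-, hi, hb⟩ <;>
  rw [Ws_eq _ (psi1_per ε c hε) n _ _ (2 * k) h0 hi _ hj, hb] <;>
  rcases hε with rfl | rfl <;> rcases hc with rfl | rfl <;>
  simp only [Finset.sum_range_succ, Finset.sum_range_zero] <;> norm_num [psi1, ct, st]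

theorem Ws1_odd {n : ℕ} (hn : Odd n) (ε c : ℤ) (hε : ε = 1 ∨ ε = -1) (hc : c = 1 ∨ c = 5) (k : ℤ)
    (hk : k % 2 = 1) :
    js 2 n * Ws (psi1 ε c) n k = (FF1 ε c).η * Real.sqrt 2 * bb2 (ε * k) := by
  rcases js_tab hn with ⟨h0, h2, hj⟩ | ⟨h0, h2, hj⟩ | ⟨h0, h2, hj⟩ | ⟨h0, h2, hj⟩ <;>
  rcases bb2_tab ε hε k hk with ⟨hi, hb⟩ | ⟨hi, hb⟩ | ⟨hi, hb⟩ | ⟨hi, hb⟩ <;>
  rw [Ws_eq _ (psi1_per ε c hε) n _ _ k h0 hi _ hj, hb, h2] <;>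
  rcases hε with rfl | rfl <;> rcases hc with rfl | rfl <;>
  simp only [Finset.sum_range_succ, Finset.sum_range_zero] <;> norm_num [psi1, ct, st, FF1] <;> ring

end

end Pool.Agent.H957R2.RGPG
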