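import Pool.Agent.H957R2.Heights

set_option autoImplicit false

namespace Pool.Agent.H957R2

open WithZero

section

variable {K : Type} [Field K] [Algebra ℂ K]

theorem root_local (N : ℕ) (a : ℕ → K) (r c : K) (j : ℕ) (hj : j ≤ N)
    (hc : c = ∑ i ∈ Finset.Ico (j + 1) (N + 1), a i * r ^ (i - (j + 1)))
    (hr : r ^ (j + 1) * c = - ∑ i ∈ Finset.range (j + 1), a i * r ^ i) (v : Place K) :
    lmax v (c • ![r, 1]) ≤ lmax v (fun i : Fin (N + 1) => a i) := by
  set A := lmax v (fun i : Fin (N + 1) => a i) with hA
  have ha : ∀ i, i < N + 1 → v.val (a i) ≤ A := fun i hi =>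
    le_lmax v (fun i : Fin (N + 1) => a i) ⟨i, hi⟩
  have key : v.val c ≤ A ∧ v.val c * v.val r ≤ A := by
    rcases le_or_gt (v.val r) 1 with h | h
    · have h1 : v.val c ≤ A := by
        rw [hc]
        refine Valuation.map_sum_le v.val fun i hi => ?_
        rw [Finset.mem_Ico] at hi
        rw [map_mul, map_pow]
        exact (mul_le_of_le_one_right' (pow_le_one' h _)).trans (ha i hi.2)
      exact ⟨h1, (mul_le_of_le_one_right' h).trans h1⟩
    · have hr0 : v.val r ≠ 0 := by
        intro h0
        rw [h0] at h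
        exact absurd h (by simp)
      have h1 : v.val r ^ (j + 1) * v.val c ≤ A * v.val r ^ j := by
        rw [← map_pow, ← map_mul, hr, Valuation.map_neg]
        refine Valuation.map_sum_le v.val fun i hi => ?_
        rw [Finset.mem_range] at hi
        rw [map_mul, map_pow]
        exact mul_le_mul' (ha i (by omega)) (pow_le_pow_right₀ h.le (by omega))
      have h2 : v.val c * v.val r ≤ A := by
        have h3 : (v.val c * v.val r) * v.val r ^ j ≤ A * v.val r ^ j := by
          calc (v.val c * v.val r) * v.val r ^ j = v.val r ^ (j + 1) * v.val c := by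
                rw [pow_succ, mul_assoc, mul_comm (v.val r) (v.val r ^ j), mul_comm (v.val c)]
            _ ≤ _ := h1
        exact (mul_le_mul_iff_left₀ (zero_lt_iff.2 (pow_ne_zero j hr0))).1 h3
      exact ⟨(le_mul_of_one_le_right' h.le).trans h2, h2⟩
  refine lmax_le v _ _ fun k => ?_
  rw [Pi.smul_apply, smul_eq_mul, map_mul]
  fin_cases k
  · exact key.2
  · simpa using key.1

theorem root_height (htr : Algebra.trdeg ℂ K = 1) (hfg : (⊤ : IntermediateField ℂ K).FG)
    (N : ℕ) (a : ℕ → K) (r : K)
    (h0 : ∃ i, i < N + 1 ∧ a i ≠ 0) (hsum : ∑ i ∈ Finset.range (N + 1), a i * r ^ i = 0) :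
    height ![r, 1] ≤ height (fun i : Fin (N + 1) => a i) := by
  let c : ℕ → K := fun j => ∑ i ∈ Finset.Ico (j + 1) (N + 1), a i * r ^ (i - (j + 1))
  have hrel : ∀ j, j ≤ N → r ^ (j + 1) * c j = - ∑ i ∈ Finset.range (j + 1), a i * r ^ i := by
    intro j hj
    rw [eq_neg_iff_add_eq_zero, ← hsum, Finset.mul_sum,
      ← Finset.sum_range_add_sum_Ico _ (show j + 1 ≤ N + 1 by omega), add_comm]
    congr 1
    refine Finset.sum_congr rfl fun i hi => ?_
    rw [Finset.mem_Ico] at hi
    have : r ^ i = r ^ (j + 1) * r ^ (i - (j + 1)) := by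
      rw [← pow_add]
      congr 1
      omega
    rw [this]
    ring
  have hex : ∃ j, j ≤ N ∧ c j ≠ 0 := by
    by_contra hcon
    push Not at hcon
    have hstep : ∀ j, j < N → c j = a (j + 1) + r * c (j + 1) := by
      intro j hj
      show ∑ i ∈ Finset.Ico (j + 1) (N + 1), a i * r ^ (i - (j + 1)) = _
      rw [Finset.sum_eq_sum_Ico_succ_bot (by omega), Nat.sub_self, pow_zero, mul_one,
        Finset.mul_sum]
      congr 1
      refine Finset.sum_congr rfl fun i hi => ?_
      rw [Finset.mem_Ico] at hi
      have : i - (j + 1) = (i - (j + 1 + 1)) + 1 := by omega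
      rw [this, pow_succ]
      ring
    have ha1 : ∀ j, j < N → a (j + 1) = 0 := by
      intro j hj
      have h1 := hstep j hj
      rw [hcon j hj.le, hcon (j + 1) (by omega), mul_zero, add_zero] at h1
      exact h1.symm
    have ha0 : a 0 = 0 := by
      have h1 := hrel 0 (Nat.zero_le _)
      rw [hcon 0 (Nat.zero_le _), mul_zero, zero_add, Finset.sum_range_one, pow_zero, mul_one] at h1
      exact neg_eq_zero.1 h1.symm
    obtain ⟨i, hi, hi0⟩ := h0
    rcases i with _ | i
    · exact hi0 ha0
    · exact hi0 (ha1 i (by omega))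
  obtain ⟨j, hj, hcj⟩ := hex
  have hne : (![r, 1] : Fin 2 → K) ≠ 0 := by
    intro h
    have := congrFun h 1
    simp at this
  have hane : (fun i : Fin (N + 1) => a i) ≠ 0 := by
    obtain ⟨i, hi, hi0⟩ := h0
    intro h
    exact hi0 (congrFun h ⟨i, hi⟩)
  rw [← height_smul htr hfg (c j) hcj _ hne]
  have := height_le_of htr hfg (c j • ![r, 1]) (fun i : Fin (N + 1) => a i) 1
    (smul_ne_zero hcj hne) hane (fun v => by
      rw [pow_one]
      exact root_local N a r (c j) j hj rfl (hrel j hj) v)
  simpa using this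

/-- The main inequality: if `∑ a_i s^i t^(N-i) = 0` with the `a_i` not all zero, and if all `a_i`
are bounded by the `e`-th power of the maximum of the `y_j`, then `h(s,t) ≤ e h(y)`. -/
theorem main_ineq (htr : Algebra.trdeg ℂ K = 1) (hfg : (⊤ : IntermediateField ℂ K).FG)
    (N e m : ℕ) (a : ℕ → K) (p : Fin 2 → K) (hp : p ≠ 0) (y : Fin m → K) (hy : y ≠ 0)
    (h0 : ∃ i, i < N + 1 ∧ a i ≠ 0)
    (hsum : ∑ i ∈ Finset.range (N + 1), a i * (p 0 ^ i * p 1 ^ (N - i)) = 0)
    (hbound : ∀ i, i < N + 1 → ∀ v : Place K, v.val (a i) ≤ lmax v y ^ e) :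
    height p ≤ e * height y := by
  have hnn : 0 ≤ (e : ℤ) * height y :=
    mul_nonneg (Int.natCast_nonneg _) (height_nonneg htr hfg y hy)
  have hane : (fun i : Fin (N + 1) => a i) ≠ 0 := by
    obtain ⟨i, hi, hi0⟩ := h0
    intro h
    exact hi0 (congrFun h ⟨i, hi⟩)
  have hay : height (fun i : Fin (N + 1) => a i) ≤ e * height y :=
    height_le_of htr hfg _ _ e hane hy fun v => lmax_le v _ _ fun i => hbound i i.2 v
  by_cases h1 : p 1 = 0
  · have h2 : p 0 ≠ 0 := by
      intro h2
      apply hp
      funext k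
      fin_cases k
      · exact h2
      · exact h1
    have h3 : p = p 0 • ![1, 0] := by
      funext k
      fin_cases k
      · simp
      · simpa using h1
    have h4 : height p = 0 := by
      rw [h3, height_smul htr hfg _ h2 _ (by
        intro h
        have := congrFun h 0
        simp at this), height_eq]
      have : ∀ v : Place K, lmax v (![1, 0] : Fin 2 → K) = 1 := by
        intro v
        apply le_antisymm
        · refine lmax_le v _ _ fun k => ?_
          fin_cases k <;> simp
        · have := le_lmax v (![1, 0] : Fin 2 → K) 0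
          simpa using this
      simp [this]
    rw [h4]
    exact hnn
  · have h3 : p = p 1 • ![p 0 / p 1, 1] := by
      funext k
      fin_cases k
      · show p 0 = p 1 * (p 0 / p 1)
        field_simp
      · simp
    have h5 : height p = height ![p 0 / p 1, 1] := by
      conv_lhs => rw [h3]
      refine height_smul htr hfg _ h1 _ ?_
      intro h
      have := congrFun h 1
      simp at this
    rw [h5]
    refine (root_height htr hfg N a (p 0 / p 1) h0 ?_).trans hay
    have h6 : p 1 ^ N * ∑ i ∈ Finset.range (N + 1), a i * (p 0 / p 1) ^ i = 0 := by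
      rw [← hsum, Finset.mul_sum]
      refine Finset.sum_congr rfl fun i hi => ?_
      rw [Finset.mem_range] at hi
      have h7 : p 1 ^ N = p 1 ^ i * p 1 ^ (N - i) := by
        rw [← pow_add]
        congr 1
        omega
      rw [h7, div_pow]
      field_simp
    exact (mul_eq_zero.1 h6).resolve_left (pow_ne_zero _ h1)

end

end Pool.Agent.H957R2
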