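import Pool.Agent.H957R2.Places

set_option autoImplicit false

namespace Pool.Agent.H957R2

open Polynomial IsDedekindDomain WithZero

section Zeros

variable (K0 K : Type) [Field K0] [Field K] [Algebra ℂ[X] K0] [IsFractionRing ℂ[X] K0]
  [Algebra ℂ[X] K] [Algebra K0 K] [IsScalarTower ℂ[X] K0 K] [Algebra ℂ K]
  [IsScalarTower ℂ ℂ[X] K] [FiniteDimensional K0 K]

/-- the ideal `(X)` of `ℂ[X]` -/
noncomputable def idealX : HeightOneSpectrum ℂ[X] where
  asIdeal := Ideal.span {X}
  isPrime := by
    rw [Ideal.span_singleton_prime X_ne_zero]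
    exact prime_X
  ne_bot := by
    rw [Ne, Ideal.span_singleton_eq_bot]
    exact X_ne_zero

theorem zeros_sum :
    {v : Place K | v.val (algebraMap ℂ[X] K X) < 1}.Finite ∧
    ∑ᶠ v ∈ {v : Place K | v.val (algebraMap ℂ[X] K X) < 1}, log (v.val (algebraMap ℂ[X] K X)) =
      - (Module.finrank K0 K : ℤ) := by
  classical
  have hchar : CharZero K0 := by
    have : CharZero ℂ[X] := inferInstance
    exact charZero_of_injective_algebraMap (IsFractionRing.injective ℂ[X] K0)
  let S := integralClosure ℂ[X] K
  have : IsDedekindDomain S := integralClosure.isDedekindDomain ℂ[X] K0 K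
  have : IsFractionRing S K := integralClosure.isFractionRing_of_finite_extension K0 K
  have : Module.Finite ℂ[X] S := IsIntegralClosure.finite ℂ[X] K0 K S
  have : IsScalarTower ℂ S K := IsScalarTower.of_algebraMap_eq' rfl
  have : Module.IsTorsionFree ℂ[X] K := by
    have h1 : Function.Injective (algebraMap ℂ[X] K) := by
      rw [IsScalarTower.algebraMap_eq ℂ[X] K0 K]
      exact (algebraMap K0 K).injective.comp (IsFractionRing.injective ℂ[X] K0)
    exact (Module.isTorsionFree_iff_algebraMap_injective).2 h1
  have : Module.IsTorsionFree ℂ[X] S := IsIntegralClosure.isTorsionFree ℂ[X] K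
  have hmax : (idealX.asIdeal).IsMaximal := idealX.isMaximal
  have hv0 : idealX.valuation K0 (algebraMap ℂ[X] K0 X) = exp (-1 : ℤ) := by
    rw [HeightOneSpectrum.valuation_of_algebraMap]
    exact HeightOneSpectrum.intValuation_singleton _ X_ne_zero rfl
  have hx : algebraMap ℂ[X] K X = algebraMap K0 K (algebraMap ℂ[X] K0 X) :=
    IsScalarTower.algebraMap_apply _ _ _ _
  -- value of `x` at a prime over `X`
  have hval : ∀ P : HeightOneSpectrum S, P.asIdeal.LiesOver idealX.asIdeal →
      P.valuation K (algebraMap ℂ[X] K X) =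
        exp (-(idealX.asIdeal.ramificationIdx' P.asIdeal : ℤ)) := by
    intro P hP
    rw [hx, ← HeightOneSpectrum.valuation_liesOver K idealX P, hv0, ← exp_nsmul]
    simp
  have hpos : ∀ P : HeightOneSpectrum S, P.asIdeal.LiesOver idealX.asIdeal →
      idealX.asIdeal.ramificationIdx' P.asIdeal ≠ 0 := fun P hP =>
    Ideal.IsDedekindDomain.ramificationIdx'_ne_zero_of_liesOver P.asIdeal idealX.ne_bot
  have hbij : Set.BijOn (placeOf : HeightOneSpectrum S → Place K)
      {P | P.asIdeal.LiesOver idealX.asIdeal} {v : Place K | v.val (algebraMap ℂ[X] K X) < 1} := by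
    refine ⟨?_, placeOf_injective.injOn, ?_⟩
    · intro P hP
      show P.valuation K (algebraMap ℂ[X] K X) < 1
      rw [hval P hP, ← exp_zero, exp_lt_exp]
      have := hpos P hP
      omega
    · intro v hv
      have hv' : v.val (algebraMap ℂ[X] K X) < 1 := hv
      have hA : ∀ p : ℂ[X], v.val (algebraMap ℂ[X] K p) ≤ 1 := by
        intro p
        induction p using Polynomial.induction_on' with
        | add p q hp hq =>
          rw [map_add]
          exact (Valuation.map_add _ _ _).trans (max_le hp hq)
        | monomial n a =>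
          rw [← C_mul_X_pow_eq_monomial, map_mul, map_pow, map_mul, map_pow]
          have hC : algebraMap ℂ[X] K (C a) = algebraMap ℂ K a := by
            rw [IsScalarTower.algebraMap_apply ℂ ℂ[X] K]; rfl
          rw [hC]
          have h1 : v.val (algebraMap ℂ K a) ≤ 1 := by
            by_cases ha : a = 0
            · simp [ha]
            · exact (v.trivial a ha).le
          exact mul_le_one' h1 (pow_le_one' hv'.le n)
      have hS : ∀ s : S, v.val (algebraMap S K s) ≤ 1 := by
        intro s
        have hs : IsIntegral ℂ[X] (s : K) := s.2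
        by_contra hcon
        rw [not_le] at hcon
        obtain ⟨p, hpm, hp⟩ := hs
        have hcon' : 1 < v.val (s : K) := hcon
        have h1 : eval₂ (algebraMap ℂ[X] K) (s : K) p =
            (s : K) ^ p.natDegree + ∑ i ∈ Finset.range p.natDegree,
              algebraMap ℂ[X] K (p.coeff i) * (s : K) ^ i := by
          rw [eval₂_eq_sum_range, Finset.sum_range_succ, hpm.coeff_natDegree, map_one, one_mul,
            add_comm]
        rw [h1] at hp
        have h2 : (s : K) ^ p.natDegree = - ∑ i ∈ Finset.range p.natDegree,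
            algebraMap ℂ[X] K (p.coeff i) * (s : K) ^ i := eq_neg_of_add_eq_zero_left hp
        have h3 : v.val ((s : K) ^ p.natDegree) < v.val ((s : K) ^ p.natDegree) := by
          conv_lhs => rw [h2, Valuation.map_neg]
          refine Valuation.map_sum_lt v.val ?_ ?_
          · exact (Valuation.ne_zero_iff _).2 (pow_ne_zero _ (by
              intro h0
              rw [h0, map_zero] at hcon'
              exact absurd hcon' (by simp)))
          · intro i hi
            rw [Finset.mem_range] at hi
            rw [map_mul, map_pow, map_pow]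
            refine lt_of_le_of_lt (mul_le_of_le_one_left' (hA _)) ?_
            exact pow_lt_pow_right₀ hcon' hi
        exact lt_irrefl _ h3
      obtain ⟨P, hP⟩ := exists_placeOf (S := S) v hS ⟨algebraMap ℂ[X] S X, by
        rw [Ne, FaithfulSMul.algebraMap_eq_zero_iff]
        exact X_ne_zero, by
        rw [← IsScalarTower.algebraMap_apply]
        exact hv'⟩
      refine ⟨P, ?_, hP⟩
      constructor
      refine (hmax.eq_of_le ?_ ?_)
      · exact (Ideal.IsPrime.under ℂ[X] P.asIdeal).ne_top
      · show Ideal.span {X} ≤ _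
        rw [Ideal.span_singleton_le_iff_mem, Ideal.under, Ideal.mem_comap,
          ← HeightOneSpectrum.valuation_lt_one_iff_mem (K := K)]
        rw [← hP] at hv'
        exact hv'
  have hset : {P : HeightOneSpectrum S | P.asIdeal.LiesOver idealX.asIdeal} =
      {P : HeightOneSpectrum S | P.asIdeal ∈ IsDedekindDomain.primesOverFinset idealX.asIdeal S} := by
    ext P
    rw [Set.mem_ofPred_eq, Set.mem_ofPred_eq, IsDedekindDomain.mem_primesOverFinset_iff idealX.ne_bot]
    exact ⟨fun h => ⟨P.isPrime, h⟩, fun h => h.2⟩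
  have hbij2 : Set.BijOn (fun P : HeightOneSpectrum S => P.asIdeal)
      {P | P.asIdeal.LiesOver idealX.asIdeal} (IsDedekindDomain.primesOverFinset idealX.asIdeal S : Set (Ideal S)) := by
    rw [hset]
    refine ⟨fun P hP => hP, fun P _ Q _ h => HeightOneSpectrum.ext h, ?_⟩
    intro I hI
    have hI' := (IsDedekindDomain.mem_primesOverFinset_iff idealX.ne_bot S).1 hI
    have h1 := hI'.1
    have h2 := hI'.2
    refine ⟨⟨I, h1, ?_⟩, hI, rfl⟩
    exact Ideal.ne_bot_of_liesOver_of_ne_bot idealX.ne_bot I
  refine ⟨?_, ?_⟩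
  · rw [← hbij.image_eq]
    refine Set.Finite.image _ ?_
    refine Set.Finite.of_finite_image (f := fun P : HeightOneSpectrum S => P.asIdeal) ?_ hbij2.injOn
    rw [hbij2.image_eq]
    exact Finset.finite_toSet _
  · rw [← finsum_mem_eq_of_bijOn (f := fun P : HeightOneSpectrum S =>
      log (P.valuation K (algebraMap ℂ[X] K X))) _ hbij (fun _ _ => rfl)]
    rw [finsum_mem_eq_of_bijOn (g := fun I : Ideal S => -(idealX.asIdeal.ramificationIdx' I : ℤ))
      _ hbij2 (fun P hP => by
        show log (P.valuation K (algebraMap ℂ[X] K X)) = _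
        rw [hval P hP, log_exp])]
    rw [finsum_mem_coe_finset]
    have hsum := Ideal.sum_ramification_inertia S K0 K (p := idealX.asIdeal) idealX.ne_bot
    rw [← hsum, Finset.sum_neg_distrib, Nat.cast_sum]
    congr 1
    refine Finset.sum_congr rfl fun I hI => ?_
    have hI' := (IsDedekindDomain.mem_primesOverFinset_iff idealX.ne_bot S).1 hI
    have h1 := hI'.1
    have h2 := hI'.2
    have hf : idealX.asIdeal.inertiaDeg' I = 1 := by
      rw [Ideal.inertiaDeg'_algebraMap]
      letI : Field (ℂ[X] ⧸ idealX.asIdeal) := Ideal.Quotient.field idealX.asIdeal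
      have e : (ℂ[X] ⧸ idealX.asIdeal) ≃+* ℂ := by
        have e1 := (Polynomial.quotientSpanXSubCAlgEquiv (0 : ℂ)).toRingEquiv
        rw [C_0, sub_zero] at e1
        exact e1
      have : IsAlgClosed (ℂ[X] ⧸ idealX.asIdeal) := IsAlgClosed.of_ringEquiv ℂ _ e.symm
      have : IsDomain (S ⧸ I) := Ideal.Quotient.isDomain I
      have : Algebra.IsIntegral (ℂ[X] ⧸ idealX.asIdeal) (S ⧸ I) := inferInstance
      have hb := IsAlgClosed.algebraMap_bijective_of_isIntegral
        (k := ℂ[X] ⧸ idealX.asIdeal) (K := S ⧸ I)
      have e2 := LinearEquiv.ofBijective (Algebra.linearMap (ℂ[X] ⧸ idealX.asIdeal) (S ⧸ I)) hb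
      rw [← e2.finrank_eq, Module.finrank_self]
    rw [hf, mul_one]

end Zeros

end Pool.Agent.H957R2
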